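import Pool.Agent.L0h3.WB.Abel
import Pool.Agent.H305R2.MertensD

/-! An Abelian theorem for Laplace transforms, with the constant. -/

set_option autoImplicit false

namespace Pool.Agent.L0h3.LC

open MeasureTheory Filter Topology Set Classical

theorem scale {f : ℝ → ℂ} {x : ℝ} (hx : 0 < x) :
    (x : ℂ) * (∫ T in Ioi (0 : ℝ), f T * Complex.exp (-((x : ℂ) * T))) =
      ∫ s in Ioi (0 : ℝ), f (s / x) * Complex.exp (-(s : ℂ)) := by
  have h1 := integral_comp_mul_left_Ioi (fun s : ℝ => f (s / x) * Complex.exp (-(s : ℂ))) 0 hx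
  rw [mul_zero] at h1
  have h2 : (fun T : ℝ => f (x * T / x) * Complex.exp (-((x * T : ℝ) : ℂ))) =
      fun T : ℝ => f T * Complex.exp (-((x : ℂ) * T)) := by
    funext T
    rw [mul_div_cancel_left₀ T hx.ne']
    push_cast
    rfl
  rw [h2] at h1
  rw [h1, Complex.real_smul]
  have : (x : ℂ) ≠ 0 := by exact_mod_cast hx.ne'
  push_cast
  rw [← mul_assoc, mul_inv_cancel₀ this, one_mul]

theorem exp_cast (s : ℝ) : Complex.exp (-(s : ℂ)) = ((Real.exp (-s) : ℝ) : ℂ) := by
  push_cast
  rfl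

theorem int_exp : IntegrableOn (fun s : ℝ => Complex.exp (-(s : ℂ))) (Ioi 0) ∧
    ∫ s in Ioi (0 : ℝ), Complex.exp (-(s : ℂ)) = 1 := by
  simp only [exp_cast]
  constructor
  · have := (WB.exp_int one_pos 0).1
    simp only [one_mul] at this
    exact this.ofReal
  · rw [integral_complex_ofReal, integral_exp_neg_Ioi_zero]
    simp

theorem int_log_exp : IntegrableOn (fun s : ℝ => (Real.log s : ℂ) * Complex.exp (-(s : ℂ))) (Ioi 0) ∧
    ∫ s in Ioi (0 : ℝ), (Real.log s : ℂ) * Complex.exp (-(s : ℂ)) =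
      -(Real.eulerMascheroniConstant : ℂ) := by
  obtain ⟨h1, h2⟩ := Pool.Agent.H305R2.integral_log_exp
  have e : (fun s : ℝ => (Real.log s : ℂ) * Complex.exp (-(s : ℂ))) =
      fun s : ℝ => ((Real.exp (-s) * Real.log s : ℝ) : ℂ) := by
    funext s
    rw [exp_cast, ← Complex.ofReal_mul, mul_comm]
  rw [e]
  constructor
  · exact h1.ofReal
  · rw [integral_complex_ofReal, h2]
    push_cast
    rfl

/-- **An Abelian theorem with the constant.** -/
theorem abelian_const {f : ℝ → ℂ} (hm : Measurable f) {C : ℝ}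
    (hb : ∀ T : ℝ, 0 < T → ‖f T‖ ≤ C * (1 + Real.log (1 + T))) {A κ : ℂ}
    (hlim : Tendsto (fun T : ℝ => f T - A * (Real.log T : ℂ)) atTop (𝓝 κ)) :
    Tendsto (fun x : ℝ => (x : ℂ) * (∫ T in Ioi (0 : ℝ), f T * Complex.exp (-((x : ℂ) * T))) +
      A * (Real.log x : ℂ)) (𝓝[>] 0) (𝓝 (κ - A * Real.eulerMascheroniConstant)) := by
  set h : ℝ → ℂ := fun T => f T - A * (Real.log T : ℂ) with hh
  have hC0 : 0 ≤ C := by
    have h1 := (norm_nonneg _).trans (hb 1 one_pos)
    have h2 : 0 < 1 + Real.log (1 + 1) := by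
      have := Real.log_nonneg (by norm_num : (1 : ℝ) ≤ 1 + 1)
      linarith
    exact nonneg_of_mul_nonneg_left h1 h2
  obtain ⟨C', hC'⟩ : ∃ C' : ℝ, ∀ T : ℝ, 0 < T → ‖h T‖ ≤ C' + ‖A‖ * max 0 (-Real.log T) := by
    obtain ⟨T0, hT0⟩ := eventually_atTop.1
      (hlim.norm.eventually (gt_mem_nhds (lt_add_one ‖κ‖)))
    set T1 : ℝ := max T0 1 with hT1
    have hT11 : 1 ≤ T1 := le_max_right _ _
    have hl1 : 0 ≤ Real.log T1 := Real.log_nonneg hT11
    have hl2 : 0 ≤ Real.log (1 + T1) := Real.log_nonneg (by linarith)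
    refine ⟨(‖κ‖ + 1) + (C * (1 + Real.log (1 + T1)) + ‖A‖ * Real.log T1), fun T hT => ?_⟩
    have hmx : 0 ≤ max 0 (-Real.log T) := le_max_left _ _
    by_cases hle : T1 ≤ T
    · have h1 := (hT0 T ((le_max_left _ _).trans hle)).le
      have h2 : 0 ≤ C * (1 + Real.log (1 + T1)) + ‖A‖ * Real.log T1 := by positivity
      have h3 : 0 ≤ ‖A‖ * max 0 (-Real.log T) := by positivity
      linarith
    · push Not at hle
      have h1 := hb T hT
      have h2 : Real.log (1 + T) ≤ Real.log (1 + T1) := Real.log_le_log (by linarith) (by linarith)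
      have h3 : |Real.log T| ≤ Real.log T1 + max 0 (-Real.log T) := by
        rw [abs_le]
        have h4 := Real.log_le_log hT hle.le
        have h5 := le_max_right 0 (-Real.log T)
        constructor <;> linarith
      have h6 : ‖h T‖ ≤ C * (1 + Real.log (1 + T1)) + ‖A‖ * (Real.log T1 + max 0 (-Real.log T)) := by
        refine (norm_sub_le _ _).trans (add_le_add (h1.trans (by gcongr)) ?_)
        rw [norm_mul, Complex.norm_real, Real.norm_eq_abs]
        gcongr
      have h7 : 0 ≤ ‖κ‖ + 1 := by positivity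
      nlinarith
  have hC'0 : 0 ≤ C' := by
    have := (norm_nonneg _).trans (hC' 1 one_pos)
    simpa using this
  set bd : ℝ → ℝ := fun s => ‖A‖ * (Real.exp (-s) * (0 + max 0 (-Real.log s))) +
    C' * Real.exp (-s) with hbd
  have hbdi : IntegrableOn bd (Ioi 0) := by
    have h1 := (Pool.Agent.H305R2.integrable_bound 0).const_mul ‖A‖
    have h2 := ((WB.exp_int one_pos 0).1).const_mul C'
    simp only [one_mul] at h2
    exact h1.add h2
  have hscaled : ∀ x : ℝ, 0 < x → x < 1 → ∀ s : ℝ, 0 < s →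
      ‖h (s / x) * Complex.exp (-(s : ℂ))‖ ≤ bd s := by
    intro x hx hx1 s hs
    rw [norm_mul, exp_cast, Complex.norm_real, Real.norm_of_nonneg (Real.exp_pos _).le]
    have h1 := hC' (s / x) (by positivity)
    have h2 : -Real.log (s / x) ≤ -Real.log s := by
      rw [neg_le_neg_iff]
      apply Real.log_le_log hs
      rw [le_div_iff₀ hx]
      nlinarith
    have h3 : max 0 (-Real.log (s / x)) ≤ max 0 (-Real.log s) := max_le_max le_rfl h2
    have he := (Real.exp_pos (-s)).le
    calc ‖h (s / x)‖ * Real.exp (-s) ≤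
        (C' + ‖A‖ * max 0 (-Real.log s)) * Real.exp (-s) := by
          gcongr
          exact h1.trans (by gcongr)
      _ = _ := by rw [hbd]; ring
  have hhm : Measurable h := by
    rw [hh]
    fun_prop
  have hmeas : ∀ x : ℝ, AEStronglyMeasurable (fun s : ℝ => h (s / x) * Complex.exp (-(s : ℂ)))
      (volume.restrict (Ioi 0)) := fun x => by
    have h1 : Measurable fun s : ℝ => h (s / x) := hhm.comp (by fun_prop)
    exact (h1.mul (by fun_prop)).aestronglyMeasurable
  have key : Tendsto (fun x : ℝ => ∫ s in Ioi (0 : ℝ), h (s / x) * Complex.exp (-(s : ℂ)))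
      (𝓝[>] 0) (𝓝 (∫ s in Ioi (0 : ℝ), κ * Complex.exp (-(s : ℂ)))) := by
    refine tendsto_integral_filter_of_dominated_convergence bd ?_ ?_ hbdi ?_
    · exact Eventually.of_forall fun x => hmeas x
    · filter_upwards [self_mem_nhdsWithin, Ioo_mem_nhdsGT (zero_lt_one : (0 : ℝ) < 1)] with x h1 h2
      filter_upwards [ae_restrict_mem measurableSet_Ioi] with s hs
      exact hscaled x h1 h2.2 s hs
    · filter_upwards [ae_restrict_mem measurableSet_Ioi] with s hs
      have hs0 : (0 : ℝ) < s := hs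
      have h1 : Tendsto (fun x : ℝ => s / x) (𝓝[>] 0) atTop := by
        have := (tendsto_inv_nhdsGT_zero (𝕜 := ℝ)).const_mul_atTop hs0
        exact this.congr fun x => (div_eq_mul_inv s x).symm
      exact (hlim.comp h1).mul_const _
  rw [integral_const_mul, int_exp.2, mul_one] at key
  have key2 := key.sub_const (A * Real.eulerMascheroniConstant)
  refine key2.congr' ?_
  filter_upwards [self_mem_nhdsWithin, Ioo_mem_nhdsGT (zero_lt_one : (0 : ℝ) < 1)] with x h1 h2
  have hx : (0 : ℝ) < x := h1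
  have hi : IntegrableOn (fun s : ℝ => h (s / x) * Complex.exp (-(s : ℂ))) (Ioi 0) := by
    refine Integrable.mono' hbdi (hmeas x) ?_
    filter_upwards [ae_restrict_mem measurableSet_Ioi] with s hs
    exact hscaled x hx h2.2 s hs
  rw [scale hx]
  have e1 : ∫ s in Ioi (0 : ℝ), f (s / x) * Complex.exp (-(s : ℂ)) =
      (∫ s in Ioi (0 : ℝ), h (s / x) * Complex.exp (-(s : ℂ))) +
      ((∫ s in Ioi (0 : ℝ), A * ((Real.log s : ℂ) * Complex.exp (-(s : ℂ)))) -
        ∫ s in Ioi (0 : ℝ), A * (Real.log x : ℂ) * Complex.exp (-(s : ℂ))) := by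
    have i1 : IntegrableOn (fun s : ℝ => A * ((Real.log s : ℂ) * Complex.exp (-(s : ℂ)))) (Ioi 0) :=
      int_log_exp.1.const_mul A
    have i2 : IntegrableOn (fun s : ℝ => A * (Real.log x : ℂ) * Complex.exp (-(s : ℂ))) (Ioi 0) :=
      int_exp.1.const_mul _
    have i3 : IntegrableOn (fun s : ℝ => A * ((Real.log s : ℂ) * Complex.exp (-(s : ℂ))) -
      A * (Real.log x : ℂ) * Complex.exp (-(s : ℂ))) (Ioi 0) := i1.sub i2
    rw [← integral_sub i1 i2, ← integral_add hi i3]
    refine setIntegral_congr_fun measurableSet_Ioi fun s hs => ?_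
    have hs0 : (0 : ℝ) < s := hs
    simp only [hh]
    rw [Real.log_div hs0.ne' hx.ne']
    push_cast
    ring
  rw [e1, integral_const_mul, integral_const_mul, int_exp.2, int_log_exp.2]
  ring

/-- two asymptotic formulas with a logarithm determine their coefficients -/
theorem log_unique {g : ℝ → ℂ} {A A' a a' : ℂ}
    (h1 : Tendsto (fun x : ℝ => g x + A * (Real.log x : ℂ)) (𝓝[>] 0) (𝓝 a))
    (h2 : Tendsto (fun x : ℝ => g x + A' * (Real.log x : ℂ)) (𝓝[>] 0) (𝓝 a')) : A = A' ∧ a = a' := by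
  have h3 := h1.sub h2
  have h4 : Tendsto (fun x : ℝ => (A - A') * (Real.log x : ℂ)) (𝓝[>] 0) (𝓝 (a - a')) := by
    refine h3.congr fun x => ?_
    ring
  have h5 : A = A' := by
    by_contra hne
    have h6 : Tendsto (fun x : ℝ => ‖(A - A') * (Real.log x : ℂ)‖) (𝓝[>] 0) atTop := by
      have h7 : Tendsto (fun x : ℝ => |Real.log x|) (𝓝[>] 0) atTop :=
        tendsto_abs_atBot_atTop.comp Real.tendsto_log_nhdsGT_zero
      have h8 := h7.const_mul_atTop (norm_pos_iff.2 (sub_ne_zero.2 hne))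
      refine h8.congr fun x => ?_
      rw [norm_mul, Complex.norm_real, Real.norm_eq_abs]
    exact not_tendsto_nhds_of_tendsto_atTop h6 _ h4.norm
  subst h5
  exact ⟨rfl, tendsto_nhds_unique h1 h2⟩

end Pool.Agent.L0h3.LC
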