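import Pool.Agent.L0h3.LC.NF

/-! Central points of L-functions of odd weight over number fields: truncated weighted sums. -/

set_option autoImplicit false

namespace Pool.Agent.L0h3.LC

open MeasureTheory Filter Topology Set Classical
open NumberField IsDedekindDomain
open Pool.Agent.L0h3.WB
open Pool.Agent.N41.RM (EN fq cq ext av bad qv en_nf hasProd_nf prod_bad bad_analytic bad_ne)

/-- the order of vanishing and the leading coefficient -/
def LT0 (F : ℂ → ℂ) (s : ℂ) (r : ℕ) (l : ℂ) : Prop :=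
  analyticOrderAt F s = r ∧ iteratedDeriv r F s / (r.factorial : ℂ) = l

theorem lt0_of {F ψ : ℂ → ℂ} {s : ℂ} {r : ℕ} (hF : Differentiable ℂ F) (hψ : Differentiable ℂ ψ)
    (h : ∀ z, F z = (z - s) ^ r * ψ z) (h0 : ψ s ≠ 0) : LT0 F s r (ψ s) := by
  constructor
  · rw [(hF.analyticAt s).analyticOrderAt_eq_natCast]
    refine ⟨ψ, hψ.analyticAt s, h0, ?_⟩
    filter_upwards with z
    rw [h, smul_eq_mul]
  · have hd : Differentiable ℂ fun u => ψ (s + u) := hψ.comp (by fun_prop)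
    have h2 : iteratedDeriv r F s = iteratedDeriv r (fun u => F (s + u)) 0 := by
      have := iteratedDeriv_comp_const_add r F s
      rw [this]
      simp
    have h3 : (fun u => F (s + u)) = fun u => u ^ r * ψ (s + u) := by
      funext u
      rw [h]
      congr 2
      ring
    have hc1 : ContDiffAt ℂ r (fun u : ℂ => u ^ r) 0 := by fun_prop
    have hc2 : ContDiffAt ℂ r (fun u : ℂ => ψ (s + u)) 0 := (hd.analyticAt 0).contDiffAt
    rw [h2, h3, iteratedDeriv_fun_mul hc1 hc2, Finset.sum_eq_single r]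
    · rw [iteratedDeriv_fun_pow_zero, if_pos rfl, Nat.choose_self, Nat.sub_self, iteratedDeriv_zero]
      have : (r.factorial : ℂ) ≠ 0 := by exact_mod_cast r.factorial_ne_zero
      field_simp
      simp
    · intro i _ hi
      rw [iteratedDeriv_fun_pow_zero, if_neg hi]
      simp
    · intro h
      exact absurd (Finset.mem_range.2 (Nat.lt_succ_self r)) h

theorem lt0_factor {F : ℂ → ℂ} {s : ℂ} {r : ℕ} {l : ℂ} (hF : Differentiable ℂ F)
    (h : LT0 F s r l) : ∃ ψ : ℂ → ℂ, Differentiable ℂ ψ ∧ ψ s ≠ 0 ∧ (∀ z, F z = (z - s) ^ r * ψ z) ∧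
      ψ s = l := by
  obtain ⟨ψ, hψ, hψ0, hf⟩ := factor hF h.1
  refine ⟨ψ, hψ, hψ0, hf, ?_⟩
  rw [← (lt0_of hF hψ hf hψ0).2, h.2]

theorem lt0_unique {F : ℂ → ℂ} {s : ℂ} {r r' : ℕ} {l l' : ℂ} (h : LT0 F s r l) (h' : LT0 F s r' l') :
    r = r' ∧ l = l' := by
  have h1 : r = r' := by
    have := h.1.symm.trans h'.1
    exact_mod_cast this
  subst h1
  exact ⟨rfl, h.2.symm.trans h'.2⟩

/-- multiplication by a function without zeros, and a shift -/
theorem lt0_shift {F g : ℂ → ℂ} {s : ℂ} {r : ℕ} {l : ℂ} (hF : Differentiable ℂ F)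
    (hg : Differentiable ℂ g) (hg0 : g s ≠ 0) (h : LT0 F s r l) :
    LT0 (fun u => F (s + u) * g (s + u)) 0 r (l * g s) := by
  obtain ⟨ψ, hψ, hψ0, hf, rfl⟩ := lt0_factor hF h
  have h1 : Differentiable ℂ fun u => F (s + u) * g (s + u) :=
    (hF.comp (by fun_prop)).mul (hg.comp (by fun_prop))
  have h2 : Differentiable ℂ fun u => ψ (s + u) * g (s + u) :=
    (hψ.comp (by fun_prop)).mul (hg.comp (by fun_prop))
  have h3 := lt0_of (s := 0) (r := r) h1 h2 (fun z => by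
    rw [hf, sub_zero]
    have : s + z - s = z := by ring
    rw [this]
    ring) (by
    simp only [add_zero]
    exact mul_ne_zero hψ0 hg0)
  simpa using h3

variable {K : Type} [Field K] [NumberField K] {N m i : ℕ}
  {α : HeightOneSpectrum (𝓞 K) → Fin N → ℂ} {S : Finset (HeightOneSpectrum (𝓞 K))} {F : ℂ → ℂ}

theorem ext_norm' (h : ∀ v j, ‖α v j‖ ≤ (Ideal.absNorm v.asIdeal : ℝ) ^ ((i : ℝ) / 2))
    (v : HeightOneSpectrum (𝓞 K)) (j : Fin N) :
    ‖ext S α v j‖ ≤ (Ideal.absNorm v.asIdeal : ℝ) ^ ((i : ℝ) / 2) := by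
  unfold Pool.Agent.N41.RM.ext
  split_ifs
  · rw [norm_zero]
    positivity
  · exact h v j

theorem ext_real' (h : ∀ v k, (∑ j, α v j ^ (k + 1)).im = 0) (v : HeightOneSpectrum (𝓞 K))
    (k : ℕ) : (∑ j, ext S α v j ^ (k + 1)).im = 0 := by
  unfold Pool.Agent.N41.RM.ext
  split_ifs
  · simp
  · exact h v k

theorem en_ext (hi : i + 1 = 2 * m)
    (hn : ∀ v j, ‖α v j‖ ≤ (Ideal.absNorm v.asIdeal : ℝ) ^ ((i : ℝ) / 2))
    (hre : ∀ v k, (∑ j, α v j ^ (k + 1)).im = 0) (S : Finset (HeightOneSpectrum (𝓞 K))) :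
    EN (fun v : HeightOneSpectrum (𝓞 K) => ((Ideal.absNorm v.asIdeal : ℕ) : ℝ)) (av m (ext S α)) :=
  en_nf hi (ext_norm' hn) (ext_real' hre)

theorem bad_diff : Differentiable ℂ (bad S α) := fun s => (bad_analytic s).differentiableAt

/-- the data -/
theorem gdat_nf (hi : i + 1 = 2 * m)
    (hn : ∀ v j, ‖α v j‖ ≤ (Ideal.absNorm v.asIdeal : ℝ) ^ ((i : ℝ) / 2))
    (hre : ∀ v k, (∑ j, α v j ^ (k + 1)).im = 0) (S : Finset (HeightOneSpectrum (𝓞 K)))
    (hFd : Differentiable ℂ F)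
    (hF : ∀ s : ℂ, (m : ℝ) + 1 / 2 < s.re → F s =
      ∏' v : HeightOneSpectrum (𝓞 K), ∏ j, (1 - α v j * (Ideal.absNorm v.asIdeal : ℂ) ^ (-s))⁻¹) :
    GDat (cn (fun v : HeightOneSpectrum (𝓞 K) => Ideal.absNorm v.asIdeal) (av m (ext S α)))
      (max 3 ((Module.finrank ℚ K * N) ^ 2)) (fun u => F (m + u) * bad S α (m + u)) := by
  have h3 : ((i : ℝ)) + 1 = 2 * m := by exact_mod_cast hi
  refine gdat (en_ext hi hn hre S) (cnt_nf K)
    ((hFd.comp (by fun_prop)).mul (bad_diff.comp (by fun_prop))) fun u hu => ?_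
  have h1 := hasProd_nf (s := m + u) hi (ext_norm' (S := S) hn) (ext_real' (S := S) hre) (by
    rw [Complex.add_re, Complex.natCast_re]
    linarith)
  rw [← prod_bad (S := S) hi hn hre (s := m + u) (by
    rw [Complex.add_re, Complex.natCast_re]
    linarith), ← hF (m + u) (by
    rw [Complex.add_re, Complex.natCast_re]
    linarith)] at h1
  have h4 : (fun v : HeightOneSpectrum (𝓞 K) => ∏ j, (1 - av m (ext S α) v j *
      (((Ideal.absNorm v.asIdeal : ℕ) : ℝ) : ℂ) ^ (-u))⁻¹) =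
    fun v : HeightOneSpectrum (𝓞 K) => ∏ j, (1 - ext S α v j *
      (Ideal.absNorm v.asIdeal : ℂ) ^ (-(m + u)))⁻¹ := by
    funext v
    refine Finset.prod_congr rfl fun j _ => ?_
    have hq : (2 : ℝ) ≤ Ideal.absNorm v.asIdeal := Pool.Agent.R409.RA.two_le v
    have hq0 : (Ideal.absNorm v.asIdeal : ℂ) ≠ 0 := by
      have : (Ideal.absNorm v.asIdeal : ℝ) ≠ 0 := by linarith
      exact_mod_cast this
    unfold Pool.Agent.N41.RM.av
    rw [Complex.ofReal_natCast, neg_add, Complex.cpow_add _ _ hq0, Complex.cpow_neg _ (m : ℂ),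
      Complex.cpow_natCast]
    congr 2
    field_simp
  rw [h4]
  exact h1

/-- the weighted sums over the primes outside `S` -/
noncomputable def wB (m : ℕ) (S : Finset (HeightOneSpectrum (𝓞 K)))
    (α : HeightOneSpectrum (𝓞 K) → Fin N → ℂ) (w : ℝ → ℂ) (X : ℝ) : ℂ :=
  ∑' x : HeightOneSpectrum (𝓞 K) × ℕ, if x.1 ∈ S then 0 else
    if ((Ideal.absNorm x.1.asIdeal ^ (x.2 + 1) : ℕ) : ℝ) ≤ X then
      (∑ j, α x.1 j ^ (x.2 + 1)) / ((x.2 + 1) * ((Ideal.absNorm x.1.asIdeal : ℂ) ^ m) ^ (x.2 + 1)) *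
        w (Real.log ((Ideal.absNorm x.1.asIdeal ^ (x.2 + 1) : ℕ) : ℝ) / Real.log X) else 0

theorem wB_eq (hi : i + 1 = 2 * m)
    (hn : ∀ v j, ‖α v j‖ ≤ (Ideal.absNorm v.asIdeal : ℝ) ^ ((i : ℝ) / 2))
    (hre : ∀ v k, (∑ j, α v j ^ (k + 1)).im = 0) (S : Finset (HeightOneSpectrum (𝓞 K)))
    (w : ℝ → ℂ) {X : ℝ} (hX : 0 ≤ X) :
    wB m S α w X = wG (cn (fun v : HeightOneSpectrum (𝓞 K) => Ideal.absNorm v.asIdeal)
      (av m (ext S α))) w X := by
  rw [← wN_eq (cnt_nf K) w hX]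
  unfold wB wN
  refine tsum_congr fun x => ?_
  have E := en_ext hi hn hre S
  have h1 : (cq (av m (ext S α)) x : ℂ) = (∑ j, av m (ext S α) x.1 j ^ (x.2 + 1)) / (x.2 + 1) := by
    have e3 : ((∑ j, av m (ext S α) x.1 j ^ (x.2 + 1)).re : ℂ) =
        ∑ j, av m (ext S α) x.1 j ^ (x.2 + 1) := by
      apply Complex.ext
      · simp
      · rw [E.real x.1 x.2, Complex.ofReal_im]
    unfold cq
    push_cast
    rw [e3]
  rw [h1]
  have h2 : nn (fun v : HeightOneSpectrum (𝓞 K) => Ideal.absNorm v.asIdeal) x =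
      Ideal.absNorm x.1.asIdeal ^ (x.2 + 1) := rfl
  rw [h2]
  by_cases hS : x.1 ∈ S
  · rw [if_pos hS]
    have h3 : ∑ j, av m (ext S α) x.1 j ^ (x.2 + 1) = 0 := by
      refine Finset.sum_eq_zero fun j _ => ?_
      unfold Pool.Agent.N41.RM.av Pool.Agent.N41.RM.ext
      rw [if_pos hS, zero_div, zero_pow (Nat.succ_ne_zero _)]
    rw [h3]
    simp
  · rw [if_neg hS]
    have h3 : ∑ j, av m (ext S α) x.1 j ^ (x.2 + 1) =
        (∑ j, α x.1 j ^ (x.2 + 1)) / ((Ideal.absNorm x.1.asIdeal : ℂ) ^ m) ^ (x.2 + 1) := by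
      rw [Finset.sum_div]
      refine Finset.sum_congr rfl fun j _ => ?_
      unfold Pool.Agent.N41.RM.av Pool.Agent.N41.RM.ext
      rw [if_neg hS, div_pow]
    rw [h3, div_div, mul_comm ((x.2 : ℂ) + 1)]

/-- the factor at the primes in `S` is real -/
theorem bad_real (hP : ∀ v ∈ S, ∃ P : Polynomial ℝ, P.map (algebraMap ℝ ℂ) =
    ∏ j, (Polynomial.X - Polynomial.C (α v j))) (m : ℕ) : ∃ b : ℝ, bad S α (m : ℂ) = b := by
  have h1 : ∀ v ∈ S, ∃ b : ℝ, ∏ j, (1 - α v j * (Ideal.absNorm v.asIdeal : ℂ) ^ (-(m : ℂ))) = b := by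
    intro v hv
    obtain ⟨P, hP⟩ := hP v hv
    have hq : (2 : ℝ) ≤ Ideal.absNorm v.asIdeal := Pool.Agent.R409.RA.two_le v
    have hq0 : (Ideal.absNorm v.asIdeal : ℂ) ≠ 0 := by
      have : (Ideal.absNorm v.asIdeal : ℝ) ≠ 0 := by linarith
      exact_mod_cast this
    set q : ℝ := ((Ideal.absNorm v.asIdeal : ℕ) : ℝ) ^ m with hqd
    have hqc : (q : ℂ) = (Ideal.absNorm v.asIdeal : ℂ) ^ m := by
      rw [hqd]
      push_cast
      rfl
    have hq1 : (q : ℂ) ≠ 0 := by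
      rw [hqc]
      exact pow_ne_zero _ hq0
    refine ⟨(q ^ N)⁻¹ * P.eval q, ?_⟩
    have h2 : ∏ j, ((q : ℂ) - α v j) = (P.eval q : ℝ) := by
      have h3 := congrArg (Polynomial.eval (q : ℂ)) hP
      rw [Polynomial.eval_prod] at h3
      simp only [Polynomial.eval_sub, Polynomial.eval_X, Polynomial.eval_C] at h3
      rw [← h3, Polynomial.eval_map]
      exact Polynomial.eval₂_at_apply (algebraMap ℝ ℂ) q
    have h3 : ∀ j, 1 - α v j * (Ideal.absNorm v.asIdeal : ℂ) ^ (-(m : ℂ)) =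
        (q : ℂ)⁻¹ * ((q : ℂ) - α v j) := by
      intro j
      rw [Complex.cpow_neg, Complex.cpow_natCast, ← hqc]
      field_simp
    simp only [h3]
    rw [Finset.prod_mul_distrib, h2, Finset.prod_const, Finset.card_univ, Fintype.card_fin]
    push_cast
    rw [inv_pow]
  choose! b hb using h1
  refine ⟨∏ v ∈ S, b v, ?_⟩
  unfold bad
  push_cast
  exact Finset.prod_congr rfl fun v hv => hb v hv

/-- growth of the factor at the primes in `S` -/
theorem bad_bound (hn : ∀ v j, ‖α v j‖ ≤ (Ideal.absNorm v.asIdeal : ℝ) ^ ((i : ℝ) / 2)) {s : ℂ}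
    (hs : (i : ℝ) / 2 < s.re) : ‖bad S α s‖ ≤ 2 ^ (N * S.card) := by
  unfold bad
  rw [norm_prod]
  have h1 : ∀ v ∈ S, ‖∏ j, (1 - α v j * (Ideal.absNorm v.asIdeal : ℂ) ^ (-s))‖ ≤ 2 ^ N := by
    intro v _
    rw [norm_prod]
    refine (Finset.prod_le_prod (fun j _ => norm_nonneg _) (g := fun _ => (2 : ℝ)) fun j _ => ?_).trans ?_
    · have hq : (2 : ℝ) ≤ Ideal.absNorm v.asIdeal := Pool.Agent.R409.RA.two_le v
      have hq0 : (0 : ℝ) < Ideal.absNorm v.asIdeal := by linarith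
      have hq1 : 0 < Ideal.absNorm v.asIdeal := by exact_mod_cast hq0
      refine (norm_sub_le _ _).trans ?_
      rw [norm_one, norm_mul, Complex.norm_natCast_cpow_of_pos hq1, Complex.neg_re]
      have h3 : ‖α v j‖ * (Ideal.absNorm v.asIdeal : ℝ) ^ (-s.re) ≤ 1 := by
        calc ‖α v j‖ * (Ideal.absNorm v.asIdeal : ℝ) ^ (-s.re)
            ≤ (Ideal.absNorm v.asIdeal : ℝ) ^ ((i : ℝ) / 2) *
              (Ideal.absNorm v.asIdeal : ℝ) ^ (-s.re) :=
              mul_le_mul_of_nonneg_right (hn v j) (by positivity)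
          _ = (Ideal.absNorm v.asIdeal : ℝ) ^ ((i : ℝ) / 2 + -s.re) := (Real.rpow_add hq0 _ _).symm
          _ ≤ 1 := Real.rpow_le_one_of_one_le_of_nonpos (by linarith) (by linarith)
      linarith
    · simp
  refine (Finset.prod_le_prod (fun v _ => norm_nonneg _) (g := fun _ => (2 : ℝ) ^ N) h1).trans ?_
  rw [Finset.prod_const, ← pow_mul]

theorem phiExp_nf (hi : i + 1 = 2 * m)
    (hn : ∀ v j, ‖α v j‖ ≤ (Ideal.absNorm v.asIdeal : ℝ) ^ ((i : ℝ) / 2))
    (h : ∃ K : ℝ, ∀ s : ℂ, (m : ℝ) < s.re → ‖F s‖ ≤ Real.exp (K * (1 + ‖s‖))) :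
    PhiExp fun u => F (m + u) * bad S α (m + u) := by
  obtain ⟨K, hK⟩ := h
  have h3 : ((i : ℝ)) + 1 = 2 * m := by exact_mod_cast hi
  refine ⟨(m + 1) * |K| + N * S.card, by positivity, fun z hz => ?_⟩
  have h1 := hK (m + z) (by rw [Complex.add_re, Complex.natCast_re]; linarith)
  have h2 := bad_bound (S := S) hn (s := m + z) (by
    rw [Complex.add_re, Complex.natCast_re]
    linarith)
  have h4 : (2 : ℝ) ^ (N * S.card) ≤ Real.exp (N * S.card) := by
    have h5 : (2 : ℝ) ≤ Real.exp 1 := by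
      have := Real.add_one_le_exp (1 : ℝ)
      linarith
    calc (2 : ℝ) ^ (N * S.card) ≤ Real.exp 1 ^ (N * S.card) := pow_le_pow_left₀ (by norm_num) h5 _
      _ = Real.exp (N * S.card) := by
          rw [← Real.exp_nat_mul]
          push_cast
          ring_nf
  rw [norm_mul]
  calc ‖F (m + z)‖ * ‖bad S α (m + z)‖ ≤ Real.exp (K * (1 + ‖(m : ℂ) + z‖)) * Real.exp (N * S.card) :=
        mul_le_mul h1 (h2.trans h4) (norm_nonneg _) (Real.exp_pos _).le
    _ = Real.exp (K * (1 + ‖(m : ℂ) + z‖) + N * S.card) := (Real.exp_add _ _).symm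
    _ ≤ _ := by
        rw [Real.exp_le_exp]
        have h5 : ‖(m : ℂ) + z‖ ≤ m + ‖z‖ := by
          refine (norm_add_le _ _).trans ?_
          rw [Complex.norm_natCast]
        have h6 := norm_nonneg z
        have h7 := norm_nonneg ((m : ℂ) + z)
        have h8 : (0 : ℝ) ≤ m := Nat.cast_nonneg m
        have h9 : K * (1 + ‖(m : ℂ) + z‖) ≤ |K| * ((m + 1) * (1 + ‖z‖)) := by
          calc K * (1 + ‖(m : ℂ) + z‖) ≤ |K| * (1 + ‖(m : ℂ) + z‖) := by
                gcongr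
                exact le_abs_self K
            _ ≤ |K| * ((m + 1) * (1 + ‖z‖)) := by
                gcongr
                nlinarith [mul_nonneg h8 h6]
        have h10 : (0 : ℝ) ≤ (N : ℝ) * S.card := by positivity
        nlinarith [mul_nonneg h10 h6]

end Pool.Agent.L0h3.LC
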