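import Pool.Agent.L0h3.LC.Riesz

/-! Weights of class `C³`: the law with the constant and error `O(1/T)`. -/

set_option autoImplicit false

namespace Pool.Agent.L0h3.LC

open MeasureTheory Filter Topology Set Classical
open Pool.Agent.L0h3.WB

variable {c : ℕ → ℝ} {Φ G f : ℂ → ℂ} {ω : ℝ → ℂ}

theorem gT_small (hc : Co c) (w : ℝ → ℂ) {t : ℝ} (ht : t < 1) : gT c w t = 0 := by
  unfold gT
  refine (tsum_congr fun p => ?_).trans tsum_zero
  by_cases hcp : c p = 0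
  · rw [hcp]; simp
  · have hp3 := hc.big p hcp
    have hp3' : (3 : ℝ) ≤ p := by exact_mod_cast hp3
    have hl : 1 ≤ Real.log p := by
      rw [Real.le_log_iff_exp_le (by linarith)]
      linarith [Real.exp_one_lt_d9]
    rw [if_neg (by linarith)]

theorem c3_const (hc : Co c) (hω : ContDiff ℝ 3 ω) (h : ∀ y : ℝ, 1 ≤ y → ω y = 0) {n : ℕ}
    {κ : ℂ} {M : ℝ} (hM : 0 ≤ M)
    (hR : ∀ T : ℝ, 1 ≤ T → ‖gT c rw2 T - (n * (Real.log T : ℂ) + κ)‖ ≤ M / T) :
    ∃ (κ' : ℂ) (M' : ℝ), ∀ T : ℝ, 1 ≤ T →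
      ‖gT c ω T - (ω 0 * n * (Real.log T : ℂ) + κ')‖ ≤ M' / T := by
  obtain ⟨hcc3, htay⟩ := taylor3 hω h
  set D3 := deriv (deriv (deriv ω)) with hD3
  obtain ⟨B, hB⟩ := (isCompact_Icc (a := (0 : ℝ)) (b := 1)).exists_bound_of_continuousOn
    hcc3.continuousOn
  have hB0 : 0 ≤ B := (norm_nonneg _).trans (hB 0 ⟨le_rfl, zero_le_one⟩)
  have hw0 : ∫ s in Ioo (0 : ℝ) 1, D3 s * (s : ℂ) ^ 2 = -(2 * ω 0) := by
    rw [← htay 0, intervalIntegral.integral_of_le zero_le_one, ← integral_Icc_eq_integral_Ioc,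
      integral_Icc_eq_integral_Ioo]
    refine setIntegral_congr_fun measurableSet_Ioo fun s _ => ?_
    simp only [sub_zero]
    ring
  set M2 : ℝ := M + n + ‖κ‖ with hM2
  have hM20 : 0 ≤ M2 := by positivity
  -- the error function
  set e : ℝ → ℂ := fun t => gT c rw2 t - (n * (Real.log t : ℂ) + κ) with he
  have heb : ∀ t : ℝ, 0 < t → ‖e t‖ ≤ M2 / t := by
    intro t ht
    by_cases h1 : 1 ≤ t
    · refine (hR t h1).trans ?_
      gcongr
      rw [hM2]
      have := norm_nonneg κ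
      have h2 : (0 : ℝ) ≤ n := Nat.cast_nonneg n
      linarith
    · push Not at h1
      rw [he]
      simp only
      rw [gT_small hc rw2 h1, zero_sub, norm_neg]
      have h2 : |Real.log t| ≤ 1 / t := by
        rw [abs_of_nonpos (Real.log_nonpos ht.le h1.le), ← Real.log_inv]
        have := Real.log_le_sub_one_of_pos (inv_pos.2 ht)
        rw [one_div]
        linarith
      have h3 : 1 ≤ 1 / t := by
        rw [le_div_iff₀ ht]
        linarith
      calc ‖(n : ℂ) * (Real.log t : ℂ) + κ‖ ≤ n * |Real.log t| + ‖κ‖ := by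
            refine (norm_add_le _ _).trans ?_
            rw [norm_mul, Complex.norm_natCast, Complex.norm_real, Real.norm_eq_abs]
        _ ≤ n * (1 / t) + ‖κ‖ * (1 / t) := by
            gcongr
            exact le_mul_of_one_le_right (norm_nonneg _) h3
        _ ≤ M * (1 / t) + (n * (1 / t) + ‖κ‖ * (1 / t)) := by
            have : 0 ≤ M * (1 / t) := by positivity
            linarith
        _ = _ := by rw [hM2]; ring
  have hlc : Continuous fun s : ℝ => (s : ℂ) ^ 2 * (Real.log s : ℂ) := by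
    have h1 : (fun s : ℝ => (s : ℂ) ^ 2 * (Real.log s : ℂ)) =
        fun s : ℝ => (s : ℂ) * ((s * Real.log s : ℝ) : ℂ) := by
      funext s
      push_cast
      ring
    rw [h1]
    exact Complex.continuous_ofReal.mul (Complex.continuous_ofReal.comp Real.continuous_mul_log)
  refine ⟨ω 0 * κ - n / 2 * ∫ s in Ioo (0 : ℝ) 1, D3 s * ((s : ℂ) ^ 2 * (Real.log s : ℂ)),
    B * M2, fun T hT => ?_⟩
  have hT0 : 0 < T := by linarith
  have hpt : ∀ s ∈ Ioo (0 : ℝ) 1, ‖D3 s * ((s : ℂ) ^ 2 * e (s * T))‖ ≤ B * (M2 / T) := by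
    intro s hs
    have hs0 : 0 < s := hs.1
    rw [norm_mul, norm_mul, norm_pow, Complex.norm_real, Real.norm_of_nonneg hs0.le]
    have h2 := hB s ⟨hs0.le, hs.2.le⟩
    have h3 := heb (s * T) (by positivity)
    have h4 : s ^ 2 * ‖e (s * T)‖ ≤ M2 / T := by
      calc s ^ 2 * ‖e (s * T)‖ ≤ s ^ 2 * (M2 / (s * T)) := by gcongr
        _ = s * (M2 / T) := by field_simp
        _ ≤ 1 * (M2 / T) := by
            have := hs.2.le
            gcongr
        _ = _ := one_mul _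
    exact mul_le_mul h2 h4 (by positivity) hB0
  have hmeas : Measurable (gT c rw2) := gT_meas (by unfold rw2; fun_prop)
  have hem : Measurable e := by
    rw [he]
    fun_prop
  have hint : IntegrableOn (fun s : ℝ => D3 s * ((s : ℂ) ^ 2 * e (s * T))) (Ioo 0 1) := by
    refine Integrable.mono' (integrable_const (B * (M2 / T))) ?_ ?_
    · have hD3m : Measurable D3 := hcc3.measurable
      have h5 : Measurable fun s : ℝ => e (s * T) := hem.comp (by fun_prop)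
      have : Measurable fun s : ℝ => D3 s * ((s : ℂ) ^ 2 * e (s * T)) := by fun_prop
      exact this.aestronglyMeasurable
    · filter_upwards [ae_restrict_mem measurableSet_Ioo] with s hs using hpt s hs
  have hint2 : IntegrableOn (fun s : ℝ => D3 s * (s : ℂ) ^ 2) (Ioo 0 1) := by
    have hcont : Continuous fun s : ℝ => D3 s * (s : ℂ) ^ 2 := by fun_prop
    exact (hcont.integrableOn_Icc (a := 0) (b := 1)).mono_set Ioo_subset_Icc_self
  have hint3 : IntegrableOn (fun s : ℝ => D3 s * ((s : ℂ) ^ 2 * (Real.log s : ℂ))) (Ioo 0 1) := by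
    have hcont : Continuous fun s : ℝ => D3 s * ((s : ℂ) ^ 2 * (Real.log s : ℂ)) := hcc3.mul hlc
    exact (hcont.integrableOn_Icc (a := 0) (b := 1)).mono_set Ioo_subset_Icc_self
  have h1 := super_eq hc hω h hT0
  rw [← hD3] at h1
  have i1 : IntegrableOn (fun s : ℝ => D3 s * (s : ℂ) ^ 2 * (n * (Real.log T : ℂ) + κ)) (Ioo 0 1) :=
    hint2.mul_const _
  have i2 : IntegrableOn (fun s : ℝ => D3 s * ((s : ℂ) ^ 2 * (Real.log s : ℂ)) * n) (Ioo 0 1) :=
    hint3.mul_const _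
  have i3 : IntegrableOn (fun s : ℝ => D3 s * (s : ℂ) ^ 2 * (n * (Real.log T : ℂ) + κ) +
      D3 s * ((s : ℂ) ^ 2 * (Real.log s : ℂ)) * n) (Ioo 0 1) := i1.add i2
  have h2 : ∫ s in Ioo (0 : ℝ) 1, D3 s * ((s : ℂ) ^ 2 * gT c rw2 (s * T)) =
      (∫ s in Ioo (0 : ℝ) 1, D3 s * ((s : ℂ) ^ 2 * e (s * T))) +
        ((∫ s in Ioo (0 : ℝ) 1, D3 s * (s : ℂ) ^ 2 * (n * (Real.log T : ℂ) + κ)) +
        ∫ s in Ioo (0 : ℝ) 1, D3 s * ((s : ℂ) ^ 2 * (Real.log s : ℂ)) * n) := by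
    rw [← integral_add i1 i2, ← integral_add hint i3]
    refine setIntegral_congr_fun measurableSet_Ioo fun s hs => ?_
    rw [he]
    simp only
    rw [Real.log_mul hs.1.ne' hT0.ne']
    push_cast
    ring
  rw [integral_mul_const, integral_mul_const, hw0, h1] at h2
  have h3 : gT c ω T - (ω 0 * n * (Real.log T : ℂ) + (ω 0 * κ -
      n / 2 * ∫ s in Ioo (0 : ℝ) 1, D3 s * ((s : ℂ) ^ 2 * (Real.log s : ℂ)))) = -(1 / 2) *
      ∫ s in Ioo (0 : ℝ) 1, D3 s * ((s : ℂ) ^ 2 * e (s * T)) := by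
    have h4 : ∫ s in Ioo (0 : ℝ) 1, D3 s * ((s : ℂ) ^ 2 * e (s * T)) =
        -(2 * gT c ω T) - (-(2 * ω 0) * (n * (Real.log T : ℂ) + κ) +
        (∫ s in Ioo (0 : ℝ) 1, D3 s * ((s : ℂ) ^ 2 * (Real.log s : ℂ))) * n) := by
      rw [h2]
      ring
    rw [h4]
    ring
  rw [h3, norm_mul, norm_neg, norm_div, norm_one, Complex.norm_ofNat]
  have h5 : ‖∫ s in Ioo (0 : ℝ) 1, D3 s * ((s : ℂ) ^ 2 * e (s * T))‖ ≤
      ∫ _s in Ioo (0 : ℝ) 1, B * (M2 / T) := by
    refine norm_integral_le_of_norm_le (integrable_const _) ?_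
    filter_upwards [ae_restrict_mem measurableSet_Ioo] with s hs using hpt s hs
  rw [setIntegral_const, Measure.real, Real.volume_Ioo, sub_zero, ENNReal.toReal_ofReal zero_le_one,
    one_smul] at h5
  have h6 : 0 ≤ B * (M2 / T) := by positivity
  have h7 : B * M2 / T = B * (M2 / T) := by ring
  rw [h7]
  linarith

/-- Dini's condition for functions of class `C¹` -/
theorem dini_c1 (hω : ContDiff ℝ 1 ω) : Dini ω (ω 0) := by
  have hc : Continuous (deriv ω) := hω.continuous_deriv le_rfl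
  have hd : Differentiable ℝ ω := hω.differentiable (by norm_num)
  obtain ⟨K, hK⟩ := (isCompact_Icc (a := (0 : ℝ)) (b := 1)).exists_bound_of_continuousOn
    hc.continuousOn
  unfold Dini
  refine Integrable.mono' (integrable_const K) ?_ ?_
  · have : Measurable fun v : ℝ => (ω v - ω 0) / (v : ℂ) := by
      have := hω.continuous.measurable
      fun_prop
    exact this.aestronglyMeasurable
  · filter_upwards [ae_restrict_mem measurableSet_Ioo] with v hv
    have h1 := (convex_Icc (0 : ℝ) 1).norm_image_sub_le_of_norm_deriv_le (f := ω) (C := K)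
      (x := 0) (y := v) (fun y _ => hd y) (fun y hy => hK y hy) ⟨le_rfl, zero_le_one⟩
      ⟨hv.1.le, hv.2.le⟩
    rw [sub_zero, Real.norm_of_nonneg hv.1.le] at h1
    rw [norm_div, Complex.norm_real, Real.norm_of_nonneg hv.1.le, div_le_iff₀ hv.1]
    exact h1

theorem tendsto_of_div {g : ℝ → ℂ} {κ : ℂ} {M : ℝ} (h : ∀ T : ℝ, 1 ≤ T → ‖g T - κ‖ ≤ M / T) :
    Tendsto g atTop (𝓝 κ) := by
  rw [tendsto_iff_norm_sub_tendsto_zero]
  refine squeeze_zero' (g := fun T : ℝ => M / T) (Eventually.of_forall fun x => norm_nonneg _) ?_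
    (Tendsto.const_div_atTop tendsto_id M)
  filter_upwards [eventually_ge_atTop (1 : ℝ)] with T hT using h T hT

/-- **The law for all weights of class `C³` vanishing on `[1, ∞)`, under the Riemann hypothesis.** -/
theorem backward (E : Eul c Φ G) (hGe : Differentiable ℂ G) {g0 : ℝ} (hg : G 0 = g0)
    (hsec : ∀ R : ℝ, 0 ≤ R → ∃ C : ℝ, ∀ v : ℂ, 0 < v.re → ‖v‖ ≤ R * v.re → ‖G v‖ ≤ C)
    (hGl : GLin G) (hΦ : PhiExp Φ) (hnz : ∀ z : ℂ, 0 < z.re → Φ z ≠ 0) {n : ℕ}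
    (hn : analyticOrderAt Φ 0 = n) {Ψ : ℂ → ℂ} (hΨ : Differentiable ℂ Ψ)
    (hΨf : ∀ u, Φ u = u ^ n * Ψ u) :
    ∃ b : ℝ, 0 < b ∧ Ψ 0 = b ∧ ∀ ω : ℝ → ℂ, ContDiff ℝ 3 ω → (∀ y : ℝ, 1 ≤ y → ω y = 0) →
      ∃ M : ℝ, ∀ T : ℝ, 1 ≤ T → ‖gT c ω T - (ω 0 * n * (Real.log T : ℂ) +
        (ω 0 * (g0 - Real.log b + n * Real.eulerMascheroniConstant) + n * cW ω (ω 0)))‖ ≤ M / T := by
  obtain ⟨f, D⟩ := E.cont hnz
  obtain ⟨lam, hL⟩ := lin0 D E (hGe 0) hn
  obtain ⟨b, hb, hb1, hb2⟩ := hL.lead_val D hg hΨ hΨf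
  obtain ⟨κ, M, hM, hR⟩ := riesz2 D E hGl hΦ hL
  refine ⟨b, hb, hb1, fun ω hω h1 => ?_⟩
  obtain ⟨κ', M', hM'⟩ := c3_const E.co hω h1 hM hR
  obtain ⟨B, hB⟩ := (isCompact_Icc (a := (0 : ℝ)) (b := 1)).exists_bound_of_continuousOn
    hω.continuous.continuousOn
  have hlim : Tendsto (fun T : ℝ => gT c ω T - ω 0 * n * (Real.log T : ℂ)) atTop (𝓝 κ') := by
    refine tendsto_of_div (M := M') fun T hT => ?_
    have := hM' T hT
    rwa [← sub_sub] at this
  have ht : Tendsto ω (𝓝[>] 0) (𝓝 (ω 0)) := tendsto_nhdsWithin_of_tendsto_nhds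
    (hω.continuous.tendsto 0)
  obtain ⟨-, h2⟩ := ident D E hGe hsec hω.continuous.measurable hB hnz hn hL ht
    (dini_c1 (hω.of_le (by norm_num))) hlim
  rw [hb2] at h2
  rw [← h2]
  exact ⟨M', hM'⟩

end Pool.Agent.L0h3.LC
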