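import Pool.Agent.L0h3.LC.EP

/-! The weighted sums over the prime powers. -/

set_option autoImplicit false

namespace Pool.Agent.L0h3.LC

open MeasureTheory Filter Topology Set Classical
open Pool.Agent.L0h3.WB

variable {a e : ℕ → ℤ} {F : ℂ → ℂ} {w : ℝ → ℂ} {B : ℝ}

/-- the weighted sums over the prime powers -/
noncomputable def wS (a e : ℕ → ℤ) (w : ℝ → ℂ) (X : ℝ) : ℂ :=
  ∑ n ∈ (Finset.range (⌊X⌋₊ + 1)).filter IsPrimePow,
    w (Real.log n / Real.log X) * ((ps (a n.minFac) (e n.minFac) (n.factorization n.minFac) : ℤ) : ℂ) /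
      ((n.factorization n.minFac : ℕ) * n)

theorem wS_eq (d : Dat a e) (w : ℝ → ℂ) {X : ℝ} (hX : 2 ≤ X) :
    wS a e w X = -gT (cp a e) w (Real.log X) - cc a e 2 * w (Real.log (2 : ℕ) / Real.log X) := by
  have hX0 : (0 : ℝ) < X := by linarith
  rw [gT_eq (co_cp d), Real.exp_log hX0]
  unfold wS
  rw [Finset.sum_filter]
  have h2 : 2 ∈ Finset.range (⌊X⌋₊ + 1) := by
    rw [Finset.mem_range]
    have : 2 ≤ ⌊X⌋₊ := Nat.le_floor (by exact_mod_cast hX)
    omega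
  have h3 : (cc a e 2 : ℂ) * w (Real.log (2 : ℕ) / Real.log X) =
      ∑ n ∈ Finset.range (⌊X⌋₊ + 1), if n = 2 then (cc a e n : ℂ) * w (Real.log n / Real.log X)
        else 0 := by
    rw [Finset.sum_ite_eq' _ 2, if_pos h2]
  rw [h3, ← Finset.sum_neg_distrib, ← Finset.sum_sub_distrib]
  refine Finset.sum_congr rfl fun n _ => ?_
  have h4 : -((cp a e n : ℂ) * w (Real.log n / Real.log X)) -
      (if n = 2 then (cc a e n : ℂ) * w (Real.log n / Real.log X) else 0) =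
      -((cc a e n : ℂ) * w (Real.log n / Real.log X)) := by
    unfold cp
    split_ifs <;> simp
  rw [h4]
  unfold cc
  split_ifs with h
  · push_cast
    ring
  · simp

theorem F_factor (hF : Differentiable ℂ F) {n : ℕ} (hn : analyticOrderAt F 1 = n) :
    ∃ Ψ : ℂ → ℂ, Differentiable ℂ Ψ ∧ (∀ u, F (1 + u) = u ^ n * Ψ u) ∧
      analyticOrderAt (fun u => F (1 + u)) 0 = n ∧ Ψ 0 = iteratedDeriv n F 1 / (n.factorial : ℂ) := by
  obtain ⟨ψ, hψ, hψ0, hf⟩ := factor hF hn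
  have h1 : ∀ u, F (1 + u) = u ^ n * ψ (1 + u) := by
    intro u
    rw [hf]
    congr 2
    ring
  have hd : Differentiable ℂ fun u => ψ (1 + u) := hψ.comp (by fun_prop)
  have hdF : Differentiable ℂ fun u => F (1 + u) := hF.comp (by fun_prop)
  refine ⟨fun u => ψ (1 + u), hd, h1, ?_, ?_⟩
  · rw [(hdF.analyticAt 0).analyticOrderAt_eq_natCast]
    refine ⟨fun u => ψ (1 + u), hd.analyticAt 0, by simpa using hψ0, ?_⟩
    filter_upwards with u
    rw [h1, sub_zero, smul_eq_mul]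
  · have h2 : iteratedDeriv n F 1 = iteratedDeriv n (fun u => F (1 + u)) 0 := by
      have := iteratedDeriv_comp_const_add n F 1
      rw [this]
      simp
    have h3 : (fun u => F (1 + u)) = fun u => u ^ n * ψ (1 + u) := funext h1
    have hc1 : ContDiffAt ℂ n (fun u : ℂ => u ^ n) 0 := by fun_prop
    have hc2 : ContDiffAt ℂ n (fun u : ℂ => ψ (1 + u)) 0 := (hd.analyticAt 0).contDiffAt
    rw [h2, h3, iteratedDeriv_fun_mul hc1 hc2, Finset.sum_eq_single n]
    · rw [iteratedDeriv_fun_pow_zero, if_pos rfl, Nat.choose_self, Nat.sub_self, iteratedDeriv_zero]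
      have : (n.factorial : ℂ) ≠ 0 := by exact_mod_cast n.factorial_ne_zero
      field_simp
      simp
    · intro i _ hi
      rw [iteratedDeriv_fun_pow_zero, if_neg hi]
      simp
    · intro h
      exact absurd (Finset.mem_range.2 (Nat.lt_succ_self n)) h

theorem order_finite' (d : Dat a e) (hF : IsEP a e F) : ∃ n : ℕ, analyticOrderAt F 1 = n := by
  have hne : analyticOrderAt F 1 ≠ ⊤ := by
    intro htop
    rw [analyticOrderAt_eq_top] at htop
    have h1 : AnalyticOnNhd ℂ F univ := hF.1.differentiableOn.analyticOnNhd isOpen_univ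
    have h2 := h1.eqOn_zero_of_preconnected_of_eventuallyEq_zero isPreconnected_univ (mem_univ 1) htop
    have h3 := (eulP d hF).ne_zero (z := 2) (by norm_num)
    exact h3 (h2 (mem_univ (1 + 2)))
  exact ⟨_, (ENat.natCast_toNat hne).symm⟩

theorem rh_shift (h : ∀ z : ℂ, 0 < z.re → F (1 + z) ≠ 0) : ∀ s : ℂ, 1 < s.re → F s ≠ 0 := by
  intro s hs
  have := h (s - 1) (by rw [Complex.sub_re, Complex.one_re]; linarith)
  rwa [add_sub_cancel] at this

theorem hlog2 : Tendsto (fun X : ℝ => Real.log (2 : ℕ) / Real.log X) atTop (𝓝[>] 0) := by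
  rw [tendsto_nhdsWithin_iff]
  refine ⟨Tendsto.const_div_atTop Real.tendsto_log_atTop _, ?_⟩
  filter_upwards [Real.tendsto_log_atTop.eventually (eventually_gt_atTop (0 : ℝ))] with X hX
  have : 0 < Real.log ((2 : ℕ) : ℝ) := Real.log_pos (by norm_num)
  exact div_pos this hX

/-- **The law determines the order and the leading coefficient.** -/
theorem law_fwd (d : Dat a e) (hF : IsEP a e F) (hwm : Measurable w)
    (hB : ∀ y ∈ Icc (0 : ℝ) 1, ‖w y‖ ≤ B) {w0 : ℂ} (hw0 : w0 ≠ 0)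
    (ht : Tendsto w (𝓝[>] 0) (𝓝 w0)) (hdini : Dini w w0) {A κ : ℂ}
    (hlim : Tendsto (fun X : ℝ => wS a e w X + A * (Real.log (Real.log X) : ℂ)) atTop (𝓝 κ)) :
    (∀ s : ℂ, 1 < s.re → F s ≠ 0) ∧ ∃ (n : ℕ) (b : ℝ), analyticOrderAt F 1 = n ∧ 0 < b ∧
      iteratedDeriv n F 1 / (n.factorial : ℂ) = b ∧ A = w0 * n ∧
      κ = w0 * (Real.log b - n * Real.eulerMascheroniConstant) - n * cW w w0 := by
  obtain ⟨n, hn⟩ := order_finite' d hF
  obtain ⟨Ψ, hΨ, hΨf, hn', hΨ0⟩ := F_factor hF.1 hn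
  have h1 : Tendsto (fun X : ℝ => -(wS a e w X + A * (Real.log (Real.log X) : ℂ)) -
      cc a e 2 * w (Real.log (2 : ℕ) / Real.log X)) atTop (𝓝 (-κ - cc a e 2 * w0)) :=
    hlim.neg.sub ((ht.comp hlog2).const_mul _)
  have h2 : Tendsto (fun T : ℝ => gT (cp a e) w T - (-(-A)) * (Real.log T : ℂ)) atTop
      (𝓝 (-κ - cc a e 2 * w0)) := by
    refine (h1.comp Real.tendsto_exp_atTop).congr' ?_
    filter_upwards [Real.tendsto_exp_atTop.eventually (eventually_ge_atTop (2 : ℝ))] with T hT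
    simp only [Function.comp_apply]
    rw [wS_eq d w hT, Real.log_exp]
    ring
  rw [neg_neg] at h2
  obtain ⟨h3, h4, b, hb, hb1, hb2⟩ := forward (eulP d hF) Gc_diff Gc_zero (Gc_sec d) hwm hB hw0 ht
    hdini hn' hΨ hΨf h2
  refine ⟨rh_shift h3, n, b, hn, hb, ?_, h4, ?_⟩
  · rw [← hΨ0, hb1]
  · have h5 : κ = -(-κ - cc a e 2 * w0) - cc a e 2 * w0 := by ring
    rw [h5, hb2]
    push_cast
    ring

theorem phiExp (h : ∃ K : ℝ, ∀ s : ℂ, 1 < s.re → ‖F s‖ ≤ Real.exp (K * (1 + ‖s‖))) :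
    PhiExp fun u => F (1 + u) := by
  obtain ⟨K, hK⟩ := h
  refine ⟨2 * |K|, by positivity, fun z hz => ?_⟩
  refine (hK (1 + z) (by rw [Complex.add_re, Complex.one_re]; linarith)).trans ?_
  rw [Real.exp_le_exp]
  have h1 : ‖1 + z‖ ≤ 1 + ‖z‖ := by
    refine (norm_add_le _ _).trans ?_
    rw [norm_one]
  have h2 := le_abs_self K
  have h3 := abs_nonneg K
  have h4 := norm_nonneg z
  have h5 := norm_nonneg (1 + z)
  calc K * (1 + ‖1 + z‖) ≤ |K| * (1 + ‖1 + z‖) := by gcongr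
    _ ≤ |K| * (1 + (1 + ‖z‖)) := by gcongr
    _ ≤ 2 * |K| * (1 + ‖z‖) := by nlinarith [mul_nonneg h3 h4]

/-- **The law for all weights of class `C³`, under the Riemann hypothesis.** -/
theorem law_bwd (d : Dat a e) (hF : IsEP a e F)
    (hgrow : ∃ K : ℝ, ∀ s : ℂ, 1 < s.re → ‖F s‖ ≤ Real.exp (K * (1 + ‖s‖)))
    (hRH : ∀ s : ℂ, 1 < s.re → F s ≠ 0) :
    ∃ (n : ℕ) (b : ℝ), analyticOrderAt F 1 = n ∧ 0 < b ∧
      iteratedDeriv n F 1 / (n.factorial : ℂ) = b ∧
      ∀ ω : ℝ → ℂ, ContDiff ℝ 3 ω → (∀ y : ℝ, 1 ≤ y → ω y = 0) →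
      ∃ M : ℝ, ∀ X : ℝ, 3 ≤ X → ‖wS a e ω X + ω 0 * n * (Real.log (Real.log X) : ℂ) -
        (ω 0 * (Real.log b - n * Real.eulerMascheroniConstant) - n * cW ω (ω 0))‖ ≤
          M / Real.log X := by
  obtain ⟨n, hn⟩ := order_finite' d hF
  obtain ⟨Ψ, hΨ, hΨf, hn', hΨ0⟩ := F_factor hF.1 hn
  obtain ⟨b, hb, hb1, hb2⟩ := backward (eulP d hF) Gc_diff Gc_zero (Gc_sec d) (Gc_lin d)
    (phiExp hgrow) (fun z hz => hRH _ (by rw [Complex.add_re, Complex.one_re]; linarith)) hn' hΨ hΨf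
  refine ⟨n, b, hn, hb, by rw [← hΨ0, hb1], fun ω hω h1 => ?_⟩
  obtain ⟨M, hM⟩ := hb2 ω hω h1
  have hc : Continuous (deriv ω) := hω.continuous_deriv (by norm_num)
  have hdω : Differentiable ℝ ω := hω.differentiable (by norm_num)
  obtain ⟨K, hK⟩ := (isCompact_Icc (a := (0 : ℝ)) (b := 1)).exists_bound_of_continuousOn
    hc.continuousOn
  have hK0 : 0 ≤ K := (norm_nonneg _).trans (hK 0 ⟨le_rfl, zero_le_one⟩)
  refine ⟨M + K * Real.log (2 : ℕ), fun X hX => ?_⟩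
  have hX0 : (0 : ℝ) < X := by linarith
  have hl : 1 ≤ Real.log X := by
    rw [Real.le_log_iff_exp_le hX0]
    linarith [Real.exp_one_lt_d9]
  have hl0 : 0 < Real.log X := by linarith
  have h2l : Real.log ((2 : ℕ) : ℝ) ≤ Real.log X := Real.log_le_log (by norm_num)
    (by push_cast; linarith)
  have h2p : 0 ≤ Real.log ((2 : ℕ) : ℝ) := Real.log_natCast_nonneg 2
  have h2 := hM _ hl
  have h3 : ‖ω (Real.log (2 : ℕ) / Real.log X) - ω 0‖ ≤ K * (Real.log (2 : ℕ) / Real.log X) := by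
    have := (convex_Icc (0 : ℝ) 1).norm_image_sub_le_of_norm_deriv_le (f := ω) (C := K)
      (x := 0) (y := Real.log (2 : ℕ) / Real.log X) (fun y _ => hdω y) (fun y hy => hK y hy)
      ⟨le_rfl, zero_le_one⟩ ⟨by positivity, (div_le_one hl0).2 h2l⟩
    rw [sub_zero, Real.norm_of_nonneg (by positivity)] at this
    exact this
  have h4 : wS a e ω X + ω 0 * n * (Real.log (Real.log X) : ℂ) -
        (ω 0 * (Real.log b - n * Real.eulerMascheroniConstant) - n * cW ω (ω 0)) =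
      -(gT (cp a e) ω (Real.log X) - (ω 0 * n * (Real.log (Real.log X) : ℂ) +
        (ω 0 * (((-(cc a e 2) : ℝ) : ℂ) - Real.log b + n * Real.eulerMascheroniConstant) +
          n * cW ω (ω 0)))) -
      cc a e 2 * (ω (Real.log (2 : ℕ) / Real.log X) - ω 0) := by
    rw [wS_eq d ω (by linarith)]
    push_cast
    ring
  rw [h4]
  refine (norm_sub_le _ _).trans ?_
  rw [norm_neg, norm_mul, Complex.norm_real, Real.norm_eq_abs, add_div]
  refine add_le_add h2 ?_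
  calc |cc a e 2| * ‖ω (Real.log (2 : ℕ) / Real.log X) - ω 0‖ ≤
        1 * (K * (Real.log (2 : ℕ) / Real.log X)) :=
          mul_le_mul (cc_le d 2) h3 (norm_nonneg _) zero_le_one
    _ = _ := by ring

end Pool.Agent.L0h3.LC
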