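import Pool.Agent.L0h3.LC.CThree

/-! Euler products of degree two and their logarithms as sums over the prime powers. -/

set_option autoImplicit false

namespace Pool.Agent.L0h3.LC

open MeasureTheory Filter Topology Set Classical
open Pool.Agent.L0h3.WB

/-- the power sums `α ^ k + β ^ k`, where `α + β = a` and `α β = e` -/
def ps (a e : ℤ) : ℕ → ℤ
  | 0 => 2
  | 1 => a
  | k + 2 => a * ps a e (k + 1) - e * ps a e k

theorem ps_eq {a e : ℤ} {α β : ℂ} (h1 : α + β = a) (h2 : α * β = e) :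
    ∀ k : ℕ, (ps a e k : ℂ) = α ^ k + β ^ k
  | 0 => by
    unfold ps
    norm_num
  | 1 => by
    unfold ps
    rw [pow_one, pow_one, h1]
  | k + 2 => by
    unfold ps
    push_cast
    rw [ps_eq h1 h2 (k + 1), ps_eq h1 h2 k, ← h1, ← h2]
    ring

theorem roots (a e : ℤ) {p : ℕ} (hp : 1 ≤ p) (ha : |a| ≤ p) (he : e = 0 ∨ e = p) :
    ∃ α β : ℂ, α + β = a ∧ α * β = e ∧ ‖α‖ ≤ p ∧ ‖β‖ ≤ p := by
  have hpR : (1 : ℝ) ≤ p := by exact_mod_cast hp
  have haR : |(a : ℝ)| ≤ p := by exact_mod_cast ha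
  have he0 : (0 : ℝ) ≤ e := by
    rcases he with h | h
    · rw [h]; simp
    · rw [h]; positivity
  set D : ℝ := (a : ℝ) ^ 2 - 4 * e with hD
  by_cases h0 : 0 ≤ D
  · set s : ℝ := √D with hs
    have hs2 : s ^ 2 = D := Real.sq_sqrt h0
    have hsa : |s| ≤ |(a : ℝ)| := by
      apply sq_le_sq.1
      rw [hs2, hD]
      linarith
    refine ⟨(((a + s) / 2 : ℝ) : ℂ), (((a - s) / 2 : ℝ) : ℂ), ?_, ?_, ?_, ?_⟩
    · push_cast; ring
    · rw [← Complex.ofReal_mul]
      have : (a + s) / 2 * ((a - s) / 2) = (e : ℝ) := by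
        have : (a + s) / 2 * ((a - s) / 2) = ((a : ℝ) ^ 2 - s ^ 2) / 4 := by ring
        rw [this, hs2, hD]
        ring
      rw [this]
      simp
    · rw [Complex.norm_real, Real.norm_eq_abs, abs_div, abs_two]
      have := abs_add_le (a : ℝ) s
      linarith
    · rw [Complex.norm_real, Real.norm_eq_abs, abs_div, abs_two]
      have := abs_sub (a : ℝ) s
      linarith
  · push Not at h0
    set s : ℝ := √(-D) with hs
    have hs2 : s ^ 2 = -D := Real.sq_sqrt (by linarith)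
    have hep : (e : ℝ) = p := by
      rcases he with h | h
      · exfalso
        rw [h] at hD
        have := sq_nonneg (a : ℝ)
        simp only [Int.cast_zero, mul_zero, sub_zero] at hD
        linarith
      · rw [h]; simp
    have hn : ((a : ℝ) ^ 2 + s ^ 2) / 4 = p := by
      rw [hs2, hD, ← hep]
      ring
    have hle : ((a : ℝ) ^ 2 + s ^ 2) / 4 ≤ (p : ℝ) ^ 2 := by
      rw [hn]
      nlinarith
    refine ⟨⟨a / 2, s / 2⟩, ⟨a / 2, -(s / 2)⟩, ?_, ?_, ?_, ?_⟩
    · apply Complex.ext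
      · simp
      · simp
    · apply Complex.ext
      · simp only [Complex.mul_re, Complex.intCast_re]
        rw [hep, ← hn]
        ring
      · simp only [Complex.mul_im, Complex.intCast_im]
        ring
    · have h1 : ‖(⟨a / 2, s / 2⟩ : ℂ)‖ ^ 2 ≤ (p : ℝ) ^ 2 := by
        rw [← Complex.normSq_eq_norm_sq, Complex.normSq_mk]
        refine le_trans (le_of_eq ?_) hle
        ring
      exact le_of_sq_le_sq h1 (by positivity)
    · have h1 : ‖(⟨a / 2, -(s / 2)⟩ : ℂ)‖ ^ 2 ≤ (p : ℝ) ^ 2 := by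
        rw [← Complex.normSq_eq_norm_sq, Complex.normSq_mk]
        refine le_trans (le_of_eq ?_) hle
        ring
      exact le_of_sq_le_sq h1 (by positivity)

/-- the conditions on the coefficients of the Euler factors -/
structure Dat (a e : ℕ → ℤ) : Prop where
  ha : ∀ p : ℕ, p.Prime → |a p| ≤ p
  he : ∀ p : ℕ, p.Prime → e p = 0 ∨ e p = p

/-- minus the coefficient of the logarithm of the Euler product at `n` -/
noncomputable def cc (a e : ℕ → ℤ) (n : ℕ) : ℝ :=
  if IsPrimePow n then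
    -((ps (a n.minFac) (e n.minFac) (n.factorization n.minFac) : ℤ) : ℝ) /
      ((n.factorization n.minFac : ℕ) * n)
  else 0

variable {a e : ℕ → ℤ} {F : ℂ → ℂ}

theorem cc_pow {p k : ℕ} (hp : p.Prime) :
    cc a e (p ^ (k + 1)) = -((ps (a p) (e p) (k + 1) : ℤ) : ℝ) / ((k + 1 : ℕ) * (p : ℝ) ^ (k + 1)) := by
  unfold cc
  rw [if_pos (hp.isPrimePow.pow (Nat.succ_ne_zero k)), hp.pow_minFac (Nat.succ_ne_zero k),
    Nat.factorization_pow_self hp]
  push_cast
  rfl

theorem cc_le (d : Dat a e) (n : ℕ) : |cc a e n| ≤ 1 := by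
  by_cases hn : IsPrimePow n
  · obtain ⟨p, k, hp, hk, rfl⟩ := (isPrimePow_nat_iff _).1 hn
    obtain ⟨k, rfl⟩ : ∃ j, k = j + 1 := ⟨k - 1, by omega⟩
    rw [cc_pow hp]
    have hp1 : (1 : ℝ) ≤ p := by exact_mod_cast hp.one_le
    have hp0 : (0 : ℝ) < p := by linarith
    rw [abs_div, abs_neg, abs_of_nonneg (by positivity : (0 : ℝ) ≤ (k + 1 : ℕ) * (p : ℝ) ^ (k + 1)),
      div_le_one (by positivity)]
    rcases Nat.eq_zero_or_pos k with h0 | h0
    · subst h0
      have h1 : ps (a p) (e p) (0 + 1) = a p := rfl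
      have h2 : |(a p : ℝ)| ≤ p := by exact_mod_cast d.ha p hp
      rw [h1]
      simpa using h2
    · obtain ⟨α, β, h1, h2, h3, h4⟩ := roots (a p) (e p) hp.one_le (d.ha p hp) (d.he p hp)
      have h5 : |((ps (a p) (e p) (k + 1) : ℤ) : ℝ)| = ‖(ps (a p) (e p) (k + 1) : ℂ)‖ := by
        rw [Complex.norm_intCast]
      rw [h5, ps_eq h1 h2]
      have h6 : (2 : ℝ) ≤ (k + 1 : ℕ) := by exact_mod_cast (by omega : 2 ≤ k + 1)
      calc ‖α ^ (k + 1) + β ^ (k + 1)‖ ≤ ‖α‖ ^ (k + 1) + ‖β‖ ^ (k + 1) := by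
            refine (norm_add_le _ _).trans ?_
            rw [norm_pow, norm_pow]
        _ ≤ (p : ℝ) ^ (k + 1) + (p : ℝ) ^ (k + 1) := by gcongr
        _ = 2 * (p : ℝ) ^ (k + 1) := by ring
        _ ≤ _ := by gcongr
  · unfold cc
    rw [if_neg hn]
    simp

theorem cc_zero_of {n : ℕ} (hn : n < 2) : cc a e n = 0 := by
  unfold cc
  rw [if_neg]
  intro h
  have := h.one_lt
  omega

/-- without the term at two -/
noncomputable def cp (a e : ℕ → ℤ) (n : ℕ) : ℝ := if n = 2 then 0 else cc a e n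

theorem co_cp (d : Dat a e) : Co (cp a e) where
  le_one := fun n => by
    unfold cp
    split_ifs
    · simp
    · exact cc_le d n
  big := fun n hn => by
    by_contra hlt
    push Not at hlt
    apply hn
    unfold cp
    split_ifs with h
    · rfl
    · exact cc_zero_of (by omega)

theorem cc_term_le (d : Dat a e) {u : ℂ} (n : ℕ) :
    ‖(cc a e n : ℂ) * Complex.exp (-(u * Real.log n))‖ ≤ (n : ℝ) ^ (-u.re) := by
  by_cases h0 : n < 2
  · rw [cc_zero_of h0, Complex.ofReal_zero, zero_mul, norm_zero]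
    positivity
  · rw [norm_mul, Complex.norm_real, Real.norm_eq_abs, norm_exp_log, exp_log_eq (by omega)]
    exact mul_le_of_le_one_left (by positivity) (cc_le d n)

theorem cc_summable (d : Dat a e) {u : ℂ} (hu : 1 < u.re) :
    Summable fun n : ℕ => (cc a e n : ℂ) * Complex.exp (-(u * Real.log n)) :=
  Summable.of_norm_bounded (Real.summable_nat_rpow.mpr (by linarith : -u.re < -1))
    fun n => cc_term_le d n

/-- one Euler factor -/
theorem local_factor (d : Dat a e) {u : ℂ} (hu : 1 < u.re) {p : ℕ} (hp : p.Prime) :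
    HasSum (fun k : ℕ => (cc a e (p ^ (k + 1)) : ℂ) *
      Complex.exp (-(u * Real.log ((p ^ (k + 1) : ℕ) : ℝ)))) (∑' k : ℕ, (cc a e (p ^ (k + 1)) : ℂ) *
      Complex.exp (-(u * Real.log ((p ^ (k + 1) : ℕ) : ℝ)))) ∧
    Complex.exp (-∑' k : ℕ, (cc a e (p ^ (k + 1)) : ℂ) *
      Complex.exp (-(u * Real.log ((p ^ (k + 1) : ℕ) : ℝ)))) =
      (1 - (a p : ℂ) * (p : ℂ) ^ (-(1 + u)) + (e p : ℂ) * ((p : ℂ) ^ (-(1 + u))) ^ 2)⁻¹ := by
  obtain ⟨α, β, h1, h2, h3, h4⟩ := roots (a p) (e p) hp.one_le (d.ha p hp) (d.he p hp)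
  have hp0 : (0 : ℝ) < p := by exact_mod_cast hp.pos
  have hp2 : (2 : ℝ) ≤ p := by exact_mod_cast hp.two_le
  have hpc : (p : ℂ) ≠ 0 := by exact_mod_cast hp.ne_zero
  set x : ℂ := (p : ℂ) ^ (-(1 + u)) with hx
  have hxn : (p : ℝ) * ‖x‖ < 1 := by
    rw [hx, Complex.norm_natCast_cpow_of_pos hp.pos, Complex.neg_re, Complex.add_re, Complex.one_re]
    have e1 : (p : ℝ) * (p : ℝ) ^ (-(1 + u.re)) = (p : ℝ) ^ (-u.re) := by
      rw [mul_comm, ← Real.rpow_add_one hp0.ne']
      congr 1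
      ring
    rw [e1]
    exact Real.rpow_lt_one_of_one_lt_of_neg (by linarith) (by linarith)
  have hxexp : x = Complex.exp (-((1 + u) * Real.log p)) := by
    rw [hx, Complex.cpow_def_of_ne_zero hpc, ← Complex.natCast_log]
    congr 1
    ring
  have hα : ‖α * x‖ < 1 := by
    rw [norm_mul]
    exact lt_of_le_of_lt (mul_le_mul_of_nonneg_right h3 (norm_nonneg _)) hxn
  have hβ : ‖β * x‖ < 1 := by
    rw [norm_mul]
    exact lt_of_le_of_lt (mul_le_mul_of_nonneg_right h4 (norm_nonneg _)) hxn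
  have hs := (Complex.hasSum_taylorSeries_neg_log hα).add (Complex.hasSum_taylorSeries_neg_log hβ)
  have hs1 := (hasSum_nat_add_iff' 1).2 hs
  simp only [Finset.range_one, Finset.sum_singleton, pow_zero, Nat.cast_zero, div_zero, add_zero,
    sub_zero] at hs1
  have hterm : ∀ k : ℕ, (cc a e (p ^ (k + 1)) : ℂ) *
      Complex.exp (-(u * Real.log ((p ^ (k + 1) : ℕ) : ℝ))) =
      -((α * x) ^ (k + 1) / ((k + 1 : ℕ) : ℂ) + (β * x) ^ (k + 1) / ((k + 1 : ℕ) : ℂ)) := by
    intro k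
    rw [cc_pow hp]
    have e1 : Complex.exp (-(u * Real.log ((p ^ (k + 1) : ℕ) : ℝ))) =
        (p : ℂ) ^ (k + 1) * x ^ (k + 1) := by
      have e2 : (p : ℂ) = Complex.exp (Real.log p) := by
        rw [← Complex.ofReal_exp, Real.exp_log hp0]
        simp
      rw [← mul_pow]
      have e3 : (p : ℂ) * x = Complex.exp (-(u * Real.log p)) := by
        rw [hxexp]
        conv_lhs => rw [e2]
        rw [← Complex.exp_add]
        congr 1
        ring
      rw [e3, ← Complex.exp_nat_mul]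
      congr 1
      push_cast
      rw [Real.log_pow]
      push_cast
      ring
    rw [e1]
    have e4 := ps_eq h1 h2 (k + 1)
    have hk : ((k + 1 : ℕ) : ℂ) ≠ 0 := by exact_mod_cast Nat.succ_ne_zero k
    have hk' : (k : ℂ) + 1 ≠ 0 := by exact_mod_cast Nat.succ_ne_zero k
    rw [Complex.ofReal_div, Complex.ofReal_neg, Complex.ofReal_intCast, e4]
    push_cast
    rw [mul_pow, mul_pow]
    field_simp
  have hs2 : HasSum (fun k : ℕ => (cc a e (p ^ (k + 1)) : ℂ) *
      Complex.exp (-(u * Real.log ((p ^ (k + 1) : ℕ) : ℝ))))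
      (-(-Complex.log (1 - α * x) + -Complex.log (1 - β * x))) := by
    refine hs1.neg.congr_fun ?_
    intro k
    exact hterm k
  refine ⟨hs2.summable.hasSum, ?_⟩
  rw [hs2.tsum_eq]
  have n1 : (1 : ℂ) - α * x ≠ 0 := by
    intro h0
    rw [sub_eq_zero] at h0
    rw [← h0, norm_one] at hα
    exact lt_irrefl _ hα
  have n2 : (1 : ℂ) - β * x ≠ 0 := by
    intro h0
    rw [sub_eq_zero] at h0
    rw [← h0, norm_one] at hβ
    exact lt_irrefl _ hβ
  rw [neg_neg, ← neg_add, Complex.exp_neg, Complex.exp_add, Complex.exp_log n1, Complex.exp_log n2]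
  congr 1
  rw [← h1, ← h2]
  ring

/-- the logarithm of the Euler product -/
theorem euler_log (d : Dat a e) {u : ℂ} (hu : 1 < u.re) {Fv : ℂ}
    (h : HasProd (fun p : Nat.Primes => (1 - (a p : ℂ) * ((p : ℕ) : ℂ) ^ (-(1 + u)) +
      (e p : ℂ) * (((p : ℕ) : ℂ) ^ (-(1 + u))) ^ 2)⁻¹) Fv) :
    Fv = Complex.exp (-∑' n : ℕ, (cc a e n : ℂ) * Complex.exp (-(u * Real.log n))) := by
  set g : ℕ → ℂ := fun n => (cc a e n : ℂ) * Complex.exp (-(u * Real.log n)) with hg
  have hgs : Summable g := cc_summable d hu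
  have hsup : Function.support g ⊆ {n | IsPrimePow n} := by
    intro n hn
    by_contra h0
    apply hn
    have h0' : ¬ IsPrimePow n := h0
    rw [hg]
    simp only
    unfold cc
    rw [if_neg h0']
    simp
  have h1 := tsum_eq_tsum_primes_of_support_subset_prime_powers hgs hsup
  have hinj : Function.Injective fun x : Nat.Primes × ℕ => ((x.1 : ℕ) ^ (x.2 + 1)) := by
    intro x y hxy
    apply Nat.Primes.prodNatEquiv.injective
    apply Subtype.ext
    exact hxy
  have h2 : Summable fun x : Nat.Primes × ℕ => g ((x.1 : ℕ) ^ (x.2 + 1)) := hgs.comp_injective hinj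
  have h3 : Summable fun p : Nat.Primes => ∑' k : ℕ, g ((p : ℕ) ^ (k + 1)) := h2.prod
  have h4 := h3.hasSum.neg.cexp
  have h5 : HasProd (fun p : Nat.Primes => (1 - (a p : ℂ) * ((p : ℕ) : ℂ) ^ (-(1 + u)) +
      (e p : ℂ) * (((p : ℕ) : ℂ) ^ (-(1 + u))) ^ 2)⁻¹)
      (Complex.exp (-∑' (p : Nat.Primes) (k : ℕ), g ((p : ℕ) ^ (k + 1)))) := by
    refine h4.congr_fun ?_
    intro p
    exact ((local_factor d hu p.2).2).symm
  rw [h1]
  exact h.unique h5

/-- the correction -/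
noncomputable def Gc (a e : ℕ → ℤ) (u : ℂ) : ℂ :=
  -((cc a e 2 : ℂ) * Complex.exp (-(u * Real.log (2 : ℕ))))

theorem Gc_diff : Differentiable ℂ (Gc a e) := by
  unfold Gc
  fun_prop

theorem Gc_zero : Gc a e 0 = ((-(cc a e 2) : ℝ) : ℂ) := by
  unfold Gc
  simp

theorem Gc_norm (d : Dat a e) {u : ℂ} (hu : 0 < u.re) : ‖Gc a e u‖ ≤ 1 := by
  unfold Gc
  rw [norm_neg, norm_mul, Complex.norm_real, Real.norm_eq_abs, norm_exp_log]
  have h1 := cc_le d 2
  have h2 : Real.exp (-(u.re * Real.log (2 : ℕ))) ≤ 1 := by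
    rw [Real.exp_le_one_iff]
    have : 0 ≤ Real.log ((2 : ℕ) : ℝ) := Real.log_natCast_nonneg 2
    nlinarith
  exact mul_le_one₀ h1 (Real.exp_pos _).le h2

theorem Gc_sec (d : Dat a e) : ∀ R : ℝ, 0 ≤ R → ∃ C : ℝ, ∀ v : ℂ, 0 < v.re → ‖v‖ ≤ R * v.re →
    ‖Gc a e v‖ ≤ C := fun _ _ => ⟨1, fun _ hv _ => Gc_norm d hv⟩

theorem Gc_lin (d : Dat a e) : GLin (Gc a e) := by
  refine ⟨1, zero_le_one, fun z hz => ?_⟩
  have h1 := Gc_norm d hz
  have h2 : 0 ≤ ‖z‖ / z.re := by positivity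
  linarith

/-- the function `F` is the Euler product -/
def IsEP (a e : ℕ → ℤ) (F : ℂ → ℂ) : Prop :=
  Differentiable ℂ F ∧ ∀ s : ℂ, 2 < s.re →
    HasProd (fun p : Nat.Primes => (1 - (a p : ℂ) * ((p : ℕ) : ℂ) ^ (-s) +
      (e p : ℂ) * (((p : ℕ) : ℂ) ^ (-s)) ^ 2)⁻¹) (F s)

theorem eulP (d : Dat a e) (hF : IsEP a e F) : Eul (cp a e) (fun u => F (1 + u)) (Gc a e) where
  co := co_cp d
  hΦ := hF.1.comp (by fun_prop)
  hG := fun z _ => Gc_diff z
  eq := fun u hu => by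
    have h1 := hF.2 (1 + u) (by rw [Complex.add_re, Complex.one_re]; linarith)
    rw [euler_log d hu h1]
    congr 1
    have hs1 := cc_summable d hu
    have h2 : ∑' n : ℕ, (cc a e n : ℂ) * Complex.exp (-(u * Real.log n)) =
        (cc a e 2 : ℂ) * Complex.exp (-(u * Real.log (2 : ℕ))) + ff (cp a e) u := by
      rw [hs1.tsum_eq_add_tsum_ite 2]
      congr 1
      unfold ff
      refine tsum_congr fun n => ?_
      unfold cp
      split_ifs <;> simp
    rw [h2]
    unfold Gc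
    ring

end Pool.Agent.L0h3.LC
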