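import Pool.Agent.L0h3.LC.Curve

/-! General Dirichlet series with coefficients `|c n| ≤ 1` for large `n`. -/

set_option autoImplicit false

namespace Pool.Agent.L0h3.LC

open MeasureTheory Filter Topology Set Classical
open Pool.Agent.L0h3.WB

/-- the data: an entire function which is the exponential of `-∑ c n n^{-u}` for `Re u > 1` -/
structure GDat (c : ℕ → ℝ) (n0 : ℕ) (Φ : ℂ → ℂ) : Prop where
  big : ∀ n, c n ≠ 0 → 2 ≤ n
  three : 3 ≤ n0
  bdd : ∀ n, n0 ≤ n → |c n| ≤ 1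
  diff : Differentiable ℂ Φ
  eq : ∀ u : ℂ, 1 < u.re → Φ u = Complex.exp (-∑' n : ℕ, (c n : ℂ) * Complex.exp (-(u * Real.log n)))

/-- the large part -/
noncomputable def cg (c : ℕ → ℝ) (n0 : ℕ) (n : ℕ) : ℝ := if n < n0 then 0 else c n

/-- the small part -/
noncomputable def Gg (c : ℕ → ℝ) (n0 : ℕ) (u : ℂ) : ℂ :=
  -∑ n ∈ Finset.range n0, (c n : ℂ) * Complex.exp (-(u * Real.log n))

/-- the weighted sums -/
noncomputable def wG (c : ℕ → ℝ) (w : ℝ → ℂ) (X : ℝ) : ℂ :=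
  -∑ n ∈ Finset.range (⌊X⌋₊ + 1), (c n : ℂ) * w (Real.log n / Real.log X)

variable {c : ℕ → ℝ} {n0 : ℕ} {Φ : ℂ → ℂ} {w : ℝ → ℂ} {B : ℝ}

theorem GDat.co (D : GDat c n0 Φ) : Co (cg c n0) where
  le_one := fun n => by
    unfold cg
    split_ifs with h
    · simp
    · exact D.bdd n (by omega)
  big := fun n hn => by
    unfold cg at hn
    split_ifs at hn with h
    · exact absurd rfl hn
    · have := D.three
      omega

theorem Gg_diff : Differentiable ℂ (Gg c n0) := by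
  unfold Gg
  fun_prop

theorem Gg_zero : Gg c n0 0 = ((-∑ n ∈ Finset.range n0, c n : ℝ) : ℂ) := by
  unfold Gg
  push_cast
  congr 1
  refine Finset.sum_congr rfl fun n _ => ?_
  simp

theorem Gg_norm {u : ℂ} (hu : 0 < u.re) : ‖Gg c n0 u‖ ≤ ∑ n ∈ Finset.range n0, |c n| := by
  unfold Gg
  rw [norm_neg]
  refine norm_sum_le_of_le _ fun n _ => ?_
  rw [norm_mul, Complex.norm_real, Real.norm_eq_abs, norm_exp_log]
  refine mul_le_of_le_one_right (abs_nonneg _) ?_
  rw [Real.exp_le_one_iff]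
  have : 0 ≤ Real.log (n : ℝ) := Real.log_natCast_nonneg n
  nlinarith

theorem Gg_sec : ∀ R : ℝ, 0 ≤ R → ∃ C : ℝ, ∀ v : ℂ, 0 < v.re → ‖v‖ ≤ R * v.re →
    ‖Gg c n0 v‖ ≤ C := fun _ _ => ⟨_, fun _ hv _ => Gg_norm hv⟩

theorem Gg_lin : GLin (Gg c n0) := by
  refine ⟨∑ n ∈ Finset.range n0, |c n|, by positivity, fun z hz => ?_⟩
  have h1 := Gg_norm (c := c) (n0 := n0) hz
  have h2 : 0 ≤ ‖z‖ / z.re := by positivity
  have h3 : 0 ≤ ∑ n ∈ Finset.range n0, |c n| := by positivity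
  nlinarith

theorem GDat.summable (D : GDat c n0 Φ) {u : ℂ} (hu : 1 < u.re) :
    Summable fun n : ℕ => (c n : ℂ) * Complex.exp (-(u * Real.log n)) := by
  have h1 : Summable fun n : ℕ => (cg c n0 n : ℂ) * Complex.exp (-(u * Real.log n)) := by
    refine Summable.of_norm_bounded (Real.summable_nat_rpow.mpr (by linarith : -u.re < -1))
      fun n => ?_
    by_cases h0 : cg c n0 n = 0
    · rw [h0, Complex.ofReal_zero, zero_mul, norm_zero]
      positivity
    · have := D.co.big n h0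
      rw [norm_mul, Complex.norm_real, Real.norm_eq_abs, norm_exp_log, exp_log_eq (by omega)]
      exact mul_le_of_le_one_left (by positivity) (D.co.le_one n)
  rw [← summable_nat_add_iff n0] at h1 ⊢
  refine h1.congr fun n => ?_
  unfold cg
  rw [if_neg (by omega)]

theorem GDat.eul (D : GDat c n0 Φ) : Eul (cg c n0) Φ (Gg c n0) where
  co := D.co
  hΦ := D.diff
  hG := fun z _ => Gg_diff z
  eq := fun u hu => by
    rw [D.eq u hu]
    congr 1
    have hs1 := D.summable hu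
    have h2 : ∑' n : ℕ, (c n : ℂ) * Complex.exp (-(u * Real.log n)) =
        (∑ n ∈ Finset.range n0, (c n : ℂ) * Complex.exp (-(u * Real.log n))) + ff (cg c n0) u := by
      rw [← hs1.sum_add_tsum_nat_add n0]
      congr 1
      unfold ff
      have h3 : Summable fun n : ℕ => (cg c n0 n : ℂ) * Complex.exp (-(u * Real.log n)) := by
        rw [← summable_nat_add_iff n0] at hs1 ⊢
        refine hs1.congr fun n => ?_
        unfold cg
        rw [if_neg (by omega)]
      rw [← h3.sum_add_tsum_nat_add n0]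
      have h4 : ∑ n ∈ Finset.range n0, (cg c n0 n : ℂ) * Complex.exp (-(u * Real.log n)) = 0 := by
        refine Finset.sum_eq_zero fun n hn => ?_
        unfold cg
        rw [if_pos (Finset.mem_range.1 hn)]
        simp
      rw [h4, zero_add]
      refine tsum_congr fun n => ?_
      unfold cg
      rw [if_neg (by omega)]
    rw [h2]
    unfold Gg
    ring

theorem wG_eq (D : GDat c n0 Φ) (w : ℝ → ℂ) {X : ℝ} (hX : n0 ≤ X) :
    wG c w X = -gT (cg c n0) w (Real.log X) -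
      ∑ n ∈ Finset.range n0, (c n : ℂ) * w (Real.log n / Real.log X) := by
  have h3 : (3 : ℝ) ≤ n0 := by exact_mod_cast D.three
  have hX0 : (0 : ℝ) < X := by linarith
  rw [gT_eq D.co, Real.exp_log hX0]
  unfold wG
  have hsub : Finset.range n0 ⊆ Finset.range (⌊X⌋₊ + 1) := by
    intro n hn
    rw [Finset.mem_range] at hn ⊢
    have : n0 ≤ ⌊X⌋₊ := Nat.le_floor hX
    omega
  have h4 : ∑ n ∈ Finset.range n0, (c n : ℂ) * w (Real.log n / Real.log X) =
      ∑ n ∈ Finset.range (⌊X⌋₊ + 1), if n < n0 then (c n : ℂ) * w (Real.log n / Real.log X)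
        else 0 := by
    rw [← Finset.sum_subset hsub]
    · refine Finset.sum_congr rfl fun n hn => ?_
      rw [if_pos (Finset.mem_range.1 hn)]
    · intro n _ hn
      rw [Finset.mem_range] at hn
      rw [if_neg hn]
  rw [h4, neg_sub_left, ← Finset.sum_add_distrib]
  congr 1
  refine Finset.sum_congr rfl fun n _ => ?_
  unfold cg
  split_ifs <;> simp

theorem hlogn (n : ℕ) (hn : 2 ≤ n) :
    Tendsto (fun X : ℝ => Real.log n / Real.log X) atTop (𝓝[>] 0) := by
  rw [tendsto_nhdsWithin_iff]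
  refine ⟨Tendsto.const_div_atTop Real.tendsto_log_atTop _, ?_⟩
  filter_upwards [Real.tendsto_log_atTop.eventually (eventually_gt_atTop (0 : ℝ))] with X hX
  have : 0 < Real.log (n : ℝ) := Real.log_pos (by exact_mod_cast (by omega : 1 < n))
  exact div_pos this hX

theorem Phi_factor {n : ℕ} (hΦ : Differentiable ℂ Φ) (hn : analyticOrderAt Φ 0 = n) :
    ∃ Ψ : ℂ → ℂ, Differentiable ℂ Ψ ∧ (∀ u, Φ u = u ^ n * Ψ u) ∧
      Ψ 0 = iteratedDeriv n Φ 0 / (n.factorial : ℂ) := by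
  obtain ⟨ψ, hψ, hψ0, hf⟩ := factor hΦ hn
  have h1 : ∀ u, Φ u = u ^ n * ψ u := by
    intro u
    rw [hf, sub_zero]
  refine ⟨ψ, hψ, h1, ?_⟩
  have h3 : Φ = fun u => u ^ n * ψ u := funext h1
  have hc1 : ContDiffAt ℂ n (fun u : ℂ => u ^ n) 0 := by fun_prop
  have hc2 : ContDiffAt ℂ n ψ 0 := (hψ.analyticAt 0).contDiffAt
  rw [h3, iteratedDeriv_fun_mul hc1 hc2, Finset.sum_eq_single n]
  · rw [iteratedDeriv_fun_pow_zero, if_pos rfl, Nat.choose_self, Nat.sub_self, iteratedDeriv_zero]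
    have : (n.factorial : ℂ) ≠ 0 := by exact_mod_cast n.factorial_ne_zero
    field_simp
    simp
  · intro i _ hi
    rw [iteratedDeriv_fun_pow_zero, if_neg hi]
    simp
  · intro h
    exact absurd (Finset.mem_range.2 (Nat.lt_succ_self n)) h

/-- **The law determines the order and the leading coefficient.** -/
theorem GDat.fwd (D : GDat c n0 Φ) (hwm : Measurable w)
    (hB : ∀ y ∈ Icc (0 : ℝ) 1, ‖w y‖ ≤ B) {w0 : ℂ} (hw0 : w0 ≠ 0)
    (ht : Tendsto w (𝓝[>] 0) (𝓝 w0)) (hdini : Dini w w0) {A κ : ℂ}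
    (hlim : Tendsto (fun X : ℝ => wG c w X + A * (Real.log (Real.log X) : ℂ)) atTop (𝓝 κ)) :
    (∀ z : ℂ, 0 < z.re → Φ z ≠ 0) ∧ ∃ (n : ℕ) (b : ℝ), analyticOrderAt Φ 0 = n ∧ 0 < b ∧
      iteratedDeriv n Φ 0 / (n.factorial : ℂ) = b ∧ A = w0 * n ∧
      κ = w0 * (Real.log b - n * Real.eulerMascheroniConstant) - n * cW w w0 := by
  obtain ⟨n, hn⟩ := D.eul.order_finite 0
  obtain ⟨Ψ, hΨ, hΨf, hΨ0⟩ := Phi_factor D.diff hn
  have h0 : Tendsto (fun X : ℝ => ∑ n ∈ Finset.range n0, (c n : ℂ) *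
      w (Real.log n / Real.log X)) atTop (𝓝 (∑ n ∈ Finset.range n0, (c n : ℂ) * w0)) := by
    refine tendsto_finsetSum _ fun k _ => ?_
    by_cases hk : c k = 0
    · simp [hk]
    · exact (ht.comp (hlogn k (D.big k hk))).const_mul _
  rw [← Finset.sum_mul] at h0
  set g : ℂ := ∑ n ∈ Finset.range n0, (c n : ℂ) with hg
  have h1 : Tendsto (fun X : ℝ => -(wG c w X + A * (Real.log (Real.log X) : ℂ)) -
      ∑ n ∈ Finset.range n0, (c n : ℂ) * w (Real.log n / Real.log X)) atTop (𝓝 (-κ - g * w0)) :=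
    hlim.neg.sub h0
  have h2 : Tendsto (fun T : ℝ => gT (cg c n0) w T - A * (Real.log T : ℂ)) atTop
      (𝓝 (-κ - g * w0)) := by
    refine (h1.comp Real.tendsto_exp_atTop).congr' ?_
    filter_upwards [Real.tendsto_exp_atTop.eventually (eventually_ge_atTop (n0 : ℝ))] with T hT
    simp only [Function.comp_apply]
    rw [wG_eq D w hT, Real.log_exp]
    ring
  obtain ⟨h3, h4, b, hb, hb1, hb2⟩ := forward D.eul Gg_diff Gg_zero Gg_sec hwm hB hw0 ht
    hdini hn hΨ hΨf h2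
  refine ⟨h3, n, b, hn, hb, ?_, h4, ?_⟩
  · rw [← hΨ0, hb1]
  · have h5 : κ = -(-κ - g * w0) - g * w0 := by ring
    rw [h5, hb2, hg]
    push_cast
    ring

/-- **The law for all weights of class `C³`, under the Riemann hypothesis.** -/
theorem GDat.bwd (D : GDat c n0 Φ) (hgrow : PhiExp Φ) (hRH : ∀ z : ℂ, 0 < z.re → Φ z ≠ 0) :
    ∃ (n : ℕ) (b : ℝ), analyticOrderAt Φ 0 = n ∧ 0 < b ∧
      iteratedDeriv n Φ 0 / (n.factorial : ℂ) = b ∧
      ∀ ω : ℝ → ℂ, ContDiff ℝ 3 ω → (∀ y : ℝ, 1 ≤ y → ω y = 0) →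
      ∃ M : ℝ, ∀ᶠ X : ℝ in atTop, ‖wG c ω X + ω 0 * n * (Real.log (Real.log X) : ℂ) -
        (ω 0 * (Real.log b - n * Real.eulerMascheroniConstant) - n * cW ω (ω 0))‖ ≤
          M / Real.log X := by
  obtain ⟨n, hn⟩ := D.eul.order_finite 0
  obtain ⟨Ψ, hΨ, hΨf, hΨ0⟩ := Phi_factor D.diff hn
  obtain ⟨b, hb, hb1, hb2⟩ := backward D.eul Gg_diff Gg_zero Gg_sec Gg_lin hgrow hRH hn hΨ hΨf
  refine ⟨n, b, hn, hb, by rw [← hΨ0, hb1], fun ω hω h1 => ?_⟩
  obtain ⟨M, hM⟩ := hb2 ω hω h1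
  have hc : Continuous (deriv ω) := hω.continuous_deriv (by norm_num)
  have hdω : Differentiable ℝ ω := hω.differentiable (by norm_num)
  obtain ⟨K, hK⟩ := (isCompact_Icc (a := (0 : ℝ)) (b := 1)).exists_bound_of_continuousOn
    hc.continuousOn
  have hK0 : 0 ≤ K := (norm_nonneg _).trans (hK 0 ⟨le_rfl, zero_le_one⟩)
  refine ⟨M + ∑ k ∈ Finset.range n0, |c k| * (K * Real.log k), ?_⟩
  have h3n : (3 : ℝ) ≤ n0 := by exact_mod_cast D.three
  filter_upwards [eventually_ge_atTop (n0 : ℝ)] with X hX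
  have hX0 : (0 : ℝ) < X := by linarith
  have hl : 1 ≤ Real.log X := by
    rw [Real.le_log_iff_exp_le hX0]
    linarith [Real.exp_one_lt_d9]
  have hl0 : 0 < Real.log X := by linarith
  have h2 := hM _ hl
  have h3 : ∀ k ∈ Finset.range n0, ‖(c k : ℂ) * (ω (Real.log k / Real.log X) - ω 0)‖ ≤
      |c k| * (K * Real.log k) / Real.log X := by
    intro k hk
    rw [Finset.mem_range] at hk
    by_cases hck : c k = 0
    · simp [hck]
    have hk2 := D.big k hck
    have hkp : 0 ≤ Real.log (k : ℝ) := Real.log_natCast_nonneg k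
    have hkl : Real.log (k : ℝ) ≤ Real.log X := by
      refine Real.log_le_log (by exact_mod_cast (by omega : 0 < k)) ?_
      have : (k : ℝ) ≤ n0 := by exact_mod_cast hk.le
      linarith
    have := (convex_Icc (0 : ℝ) 1).norm_image_sub_le_of_norm_deriv_le (f := ω) (C := K)
      (x := 0) (y := Real.log k / Real.log X) (fun y _ => hdω y) (fun y hy => hK y hy)
      ⟨le_rfl, zero_le_one⟩ ⟨by positivity, (div_le_one hl0).2 hkl⟩
    rw [sub_zero, Real.norm_of_nonneg (by positivity)] at this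
    rw [norm_mul, Complex.norm_real, Real.norm_eq_abs]
    calc |c k| * ‖ω (Real.log k / Real.log X) - ω 0‖ ≤
          |c k| * (K * (Real.log k / Real.log X)) := by gcongr
      _ = _ := by ring
  have h4 : wG c ω X + ω 0 * n * (Real.log (Real.log X) : ℂ) -
        (ω 0 * (Real.log b - n * Real.eulerMascheroniConstant) - n * cW ω (ω 0)) =
      -(gT (cg c n0) ω (Real.log X) - (ω 0 * n * (Real.log (Real.log X) : ℂ) +
        (ω 0 * (((-∑ n ∈ Finset.range n0, c n : ℝ) : ℂ) - Real.log b +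
          n * Real.eulerMascheroniConstant) + n * cW ω (ω 0)))) -
      ∑ k ∈ Finset.range n0, (c k : ℂ) * (ω (Real.log k / Real.log X) - ω 0) := by
    rw [wG_eq D ω hX]
    simp only [mul_sub, Finset.sum_sub_distrib]
    rw [← Finset.sum_mul]
    push_cast
    ring
  rw [h4]
  refine (norm_sub_le _ _).trans ?_
  rw [norm_neg, add_div]
  refine add_le_add h2 ?_
  refine (norm_sum_le_of_le _ h3).trans (le_of_eq ?_)
  rw [Finset.sum_div]

end Pool.Agent.L0h3.LC
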