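import Pool.Agent.L0h3.LC.Lead2
import Pool.Agent.L0h3.WB.Curve

/-! Identification of the constants in a weighted law. -/

set_option autoImplicit false

namespace Pool.Agent.L0h3.LC

open MeasureTheory Filter Topology Set Classical
open Pool.Agent.L0h3.WB

variable {c : ℕ → ℝ} {Φ G f : ℂ → ℂ} {w : ℝ → ℂ} {B : ℝ}

theorem log_bound (hc : Co c) (hB : ∀ y ∈ Icc (0 : ℝ) 1, ‖w y‖ ≤ B) {A κ : ℂ}
    (hlim : Tendsto (fun T : ℝ => gT c w T - A * (Real.log T : ℂ)) atTop (𝓝 κ)) :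
    ∃ C2 : ℝ, 0 ≤ C2 ∧ ∀ T : ℝ, 0 < T → ‖gT c w T‖ ≤ C2 * (1 + Real.log (1 + T)) := by
  have hB0 : 0 ≤ B := (norm_nonneg _).trans (hB 0 ⟨le_rfl, zero_le_one⟩)
  obtain ⟨T0, hT0⟩ := eventually_atTop.1 ((hlim.norm.eventually
    (gt_mem_nhds (lt_add_one ‖κ‖))).and (eventually_ge_atTop (1 : ℝ)))
  refine ⟨(‖κ‖ + 1 + ‖A‖) + (B * (Real.exp T0 + 1)), by positivity, fun T hT => ?_⟩
  have h3 : 0 ≤ Real.log (1 + T) := Real.log_nonneg (by linarith)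
  have hX : 0 ≤ B * (Real.exp T0 + 1) := by positivity
  by_cases hle : T0 ≤ T
  · obtain ⟨h4, h5⟩ := hT0 T hle
    have h6 : Real.log T ≤ Real.log (1 + T) := Real.log_le_log hT (by linarith)
    have h7 : 0 ≤ Real.log T := Real.log_nonneg h5
    have h8 : ‖gT c w T‖ ≤ (‖κ‖ + 1) + ‖A‖ * Real.log T := by
      have h9 : gT c w T = (gT c w T - A * (Real.log T : ℂ)) + A * (Real.log T : ℂ) := by ring
      rw [h9]
      refine (norm_add_le _ _).trans (add_le_add h4.le ?_)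
      rw [norm_mul, Complex.norm_real, Real.norm_of_nonneg h7]
    have h10 : 0 ≤ ‖κ‖ + 1 := by positivity
    have h11 : ‖A‖ * Real.log T ≤ ‖A‖ * Real.log (1 + T) := by gcongr
    have h12 : 0 ≤ ‖A‖ := norm_nonneg _
    nlinarith [mul_nonneg hX h3, mul_nonneg h10 h3, mul_nonneg h12 h3]
  · push Not at hle
    refine (gT_trivial hc hB T).trans ?_
    have h2 : B * (Real.exp T + 1) ≤ B * (Real.exp T0 + 1) := by gcongr
    refine h2.trans ?_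
    have h10 : 0 ≤ ‖κ‖ + 1 + ‖A‖ := by positivity
    nlinarith [mul_nonneg hX h3, mul_nonneg h10 h3]

theorem exp_bound {C2 : ℝ} (hC20 : 0 ≤ C2)
    (hC2 : ∀ T : ℝ, 0 < T → ‖gT c w T‖ ≤ C2 * (1 + Real.log (1 + T))) :
    ∀ δ : ℝ, 0 < δ → ∃ C' : ℝ, 0 ≤ C' ∧ ∀ T : ℝ, 0 < T → ‖gT c w T‖ ≤ C' * Real.exp (δ * T) := by
  intro δ hδ
  refine ⟨C2 * (1 + 1 / δ), by positivity, fun T hT => (hC2 T hT).trans ?_⟩
  rw [mul_assoc]
  refine mul_le_mul_of_nonneg_left ?_ hC20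
  have h3 : Real.log (1 + T) ≤ T := by
    have := Real.log_le_sub_one_of_pos (by linarith : 0 < 1 + T)
    linarith
  have h4 : 1 ≤ Real.exp (δ * T) := Real.one_le_exp (by positivity)
  have h5 : δ * T ≤ Real.exp (δ * T) := by
    have := Real.add_one_le_exp (δ * T)
    linarith
  have h6 : T ≤ 1 / δ * Real.exp (δ * T) := by
    rw [one_div, inv_mul_eq_div, le_div_iff₀ hδ]
    linarith
  linarith

theorem LT_diff' (hc : Co c) (hwm : Measurable w) {C2 : ℝ} (hC20 : 0 ≤ C2)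
    (hC2 : ∀ T : ℝ, 0 < T → ‖gT c w T‖ ≤ C2 * (1 + Real.log (1 + T))) :
    ∀ z : ℂ, 0 < z.re → DifferentiableAt ℂ (LT c w) z := by
  intro z hz
  obtain ⟨C', hC'0, hC'⟩ := exp_bound hC20 hC2 (z.re / 2) (by positivity)
  exact LT_diff hc hwm hC'0 hC' (by linarith)

/-- the law gives the Riemann hypothesis -/
theorem rh_of_law (E : Eul c Φ G) (hwm : Measurable w) (hB : ∀ y ∈ Icc (0 : ℝ) 1, ‖w y‖ ≤ B)
    {C2 : ℝ} (hC20 : 0 ≤ C2)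
    (hC2 : ∀ T : ℝ, 0 < T → ‖gT c w T‖ ≤ C2 * (1 + Real.log (1 + T))) {w0 : ℂ} (hw0 : w0 ≠ 0)
    (ht : Tendsto w (𝓝[>] 0) (𝓝 w0)) : ∀ z : ℂ, 0 < z.re → Φ z ≠ 0 := by
  obtain ⟨y, hy, hne⟩ := not_ae_zero hw0 ht
  intro z hz
  have hy0 := hy.1
  obtain ⟨C', hC'0, hC'⟩ := exp_bound hC20 hC2 (y * z.re / 2) (by positivity)
  refine E.no_zero_meas hwm hB (by positivity) hC'0 hC' hy hne ?_
  have : y * z.re / 2 / y = z.re / 2 := by field_simp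
  rw [this]
  linarith

/-- the constants, when the Riemann hypothesis is known -/
theorem ident (D : Cont c Φ G f) (E : Eul c Φ G) (hGe : Differentiable ℂ G)
    (hsec : ∀ R : ℝ, 0 ≤ R → ∃ C : ℝ, ∀ v : ℂ, 0 < v.re → ‖v‖ ≤ R * v.re → ‖G v‖ ≤ C)
    (hwm : Measurable w) (hB : ∀ y ∈ Icc (0 : ℝ) 1, ‖w y‖ ≤ B)
    (hnz : ∀ z : ℂ, 0 < z.re → Φ z ≠ 0)
    {n : ℕ} (hn : analyticOrderAt Φ 0 = n) {lam : ℂ} (hL : Lin0 Φ G f n lam) {w0 : ℂ}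
    (ht : Tendsto w (𝓝[>] 0) (𝓝 w0)) (hdini : Dini w w0) {A κ : ℂ}
    (hlim : Tendsto (fun T : ℝ => gT c w T - A * (Real.log T : ℂ)) atTop (𝓝 κ)) :
    A = w0 * n ∧ κ = w0 * (lam + n * Real.eulerMascheroniConstant) + n * cW w w0 := by
  obtain ⟨C2, hC20, hC2⟩ := log_bound E.co hB hlim
  have h1 := abelian_const (gT_meas hwm) hC2 hlim
  have h2 := lead D E hGe hsec hwm hB hnz (LT_diff' E.co hwm hC20 hC2) hn hL ht hdini
  obtain ⟨h3, h4⟩ := log_unique h1 h2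
  refine ⟨h3, ?_⟩
  have h5 : κ = (κ - A * Real.eulerMascheroniConstant) + A * Real.eulerMascheroniConstant := by ring
  rw [h5, h4, h3]
  ring

/-- the value of the leading coefficient -/
theorem Lin0.lead_val (D : Cont c Φ G f) {g0 : ℝ} (hg : G 0 = g0) {n : ℕ} {lam : ℂ}
    (hL : Lin0 Φ G f n lam) {Ψ : ℂ → ℂ} (hΨ : Differentiable ℂ Ψ) (hΨf : ∀ u, Φ u = u ^ n * Ψ u) :
    ∃ b : ℝ, 0 < b ∧ Ψ 0 = b ∧ lam = g0 - Real.log b := by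
  have h1 := hL.val Ψ hΨ hΨf
  have h2 := hL.real D
  refine ⟨Real.exp (g0 - lam.re), Real.exp_pos _, ?_, ?_⟩
  · rw [h1, hg]
    conv_lhs => rw [h2]
    push_cast
    rfl
  · rw [Real.log_exp]
    conv_lhs => rw [h2]
    push_cast
    ring

/-- **The law determines everything.** -/
theorem forward (E : Eul c Φ G) (hGe : Differentiable ℂ G) {g0 : ℝ} (hg : G 0 = g0)
    (hsec : ∀ R : ℝ, 0 ≤ R → ∃ C : ℝ, ∀ v : ℂ, 0 < v.re → ‖v‖ ≤ R * v.re → ‖G v‖ ≤ C)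
    (hwm : Measurable w) (hB : ∀ y ∈ Icc (0 : ℝ) 1, ‖w y‖ ≤ B) {w0 : ℂ} (hw0 : w0 ≠ 0)
    (ht : Tendsto w (𝓝[>] 0) (𝓝 w0)) (hdini : Dini w w0) {n : ℕ}
    (hn : analyticOrderAt Φ 0 = n) {Ψ : ℂ → ℂ} (hΨ : Differentiable ℂ Ψ)
    (hΨf : ∀ u, Φ u = u ^ n * Ψ u) {A κ : ℂ}
    (hlim : Tendsto (fun T : ℝ => gT c w T - A * (Real.log T : ℂ)) atTop (𝓝 κ)) :
    (∀ z : ℂ, 0 < z.re → Φ z ≠ 0) ∧ A = w0 * n ∧ ∃ b : ℝ, 0 < b ∧ Ψ 0 = b ∧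
      κ = w0 * (g0 - Real.log b + n * Real.eulerMascheroniConstant) + n * cW w w0 := by
  obtain ⟨C2, hC20, hC2⟩ := log_bound E.co hB hlim
  have hnz := rh_of_law E hwm hB hC20 hC2 hw0 ht
  obtain ⟨f, D⟩ := E.cont hnz
  obtain ⟨lam, hL⟩ := lin0 D E (hGe 0) hn
  obtain ⟨h1, h2⟩ := ident D E hGe hsec hwm hB hnz hn hL ht hdini hlim
  obtain ⟨b, hb, hb1, hb2⟩ := hL.lead_val D hg hΨ hΨf
  refine ⟨hnz, h1, b, hb, hb1, ?_⟩
  rw [h2, hb2]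

end Pool.Agent.L0h3.LC
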