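import Pool.Agent.L0h3.LC.Abel
import Pool.Agent.L0h3.WB.Conv3

/-! The leading coefficient and the behaviour of the Laplace transform at the origin. -/

set_option autoImplicit false

namespace Pool.Agent.L0h3.LC

open MeasureTheory Filter Topology Set Classical
open Pool.Agent.L0h3.WB

variable {c : ℕ → ℝ} {Φ G f : ℂ → ℂ} {w : ℝ → ℂ} {B : ℝ}

/-- the continuation near the origin -/
theorem local_form (D : Cont c Φ G f) (E : Eul c Φ G) {n : ℕ} {Ψ : ℂ → ℂ}
    (hΨ : Differentiable ℂ Ψ) (hΨ0 : Ψ 0 ≠ 0) (hΨf : ∀ u, Φ u = u ^ n * Ψ u) :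
    ∃ (ρ : ℝ) (h0 : ℂ), 0 < ρ ∧ Complex.exp h0 = Ψ 0 ∧ (∀ z ∈ Metric.ball (0 : ℂ) ρ,
      Ψ z / Ψ 0 ∈ Complex.slitPlane) ∧ ∀ z : ℂ, 0 < z.re → ‖z‖ < ρ →
      f z = G z - h0 - n * Complex.log z - Complex.log (Ψ z / Ψ 0) := by
  have hlim : Tendsto (fun z => Ψ z / Ψ 0) (𝓝 0) (𝓝 1) := by
    have := (hΨ.continuous.tendsto 0).div_const (Ψ 0)
    rwa [div_self hΨ0] at this
  obtain ⟨ρ, hρ, hball⟩ := Metric.eventually_nhds_iff_ball.1
    (hlim.eventually (Metric.ball_mem_nhds (1 : ℂ) (by norm_num : (0 : ℝ) < 1 / 2)))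
  have hsl : ∀ z ∈ Metric.ball (0 : ℂ) ρ, Ψ z / Ψ 0 ∈ Complex.slitPlane := by
    intro z hz
    have h1 := hball z hz
    rw [dist_eq_norm] at h1
    left
    have h2 := (Complex.abs_re_le_norm _).trans_lt h1
    rw [Complex.sub_re, Complex.one_re, abs_lt] at h2
    linarith
  set h : ℂ → ℂ := fun z => (G z - f z) - n * Complex.log z - Complex.log (Ψ z / Ψ 0) with hh
  set U : Set ℂ := {z : ℂ | 0 < z.re} ∩ Metric.ball 0 ρ with hU
  have hUo : IsOpen U := (isOpen_half 0).inter Metric.isOpen_ball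
  have hUc : IsPreconnected U := ((convex_half 0).inter (convex_ball _ _)).isPreconnected
  have hzsl : ∀ z : ℂ, 0 < z.re → z ∈ Complex.slitPlane := fun z hz => Or.inl hz
  have hd : ∀ z ∈ U, HasDerivAt h 0 z := by
    intro z hz
    have hz0 : 0 < z.re := hz.1
    have hzne : z ≠ 0 := by
      rintro rfl
      simp at hz0
    have hdG := (E.hG z hz0).hasDerivAt
    have hdΨ := (hΨ z).hasDerivAt
    have h1 : HasDerivAt (fun z => Complex.log (Ψ z / Ψ 0))
        (deriv Ψ z / Ψ 0 / (Ψ z / Ψ 0)) z := (hdΨ.div_const _).clog (hsl z hz.2)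
    have h2 : HasDerivAt (fun z => (n : ℂ) * Complex.log z) (n * (1 / z)) z :=
      ((hasDerivAt_id z).clog (hzsl z hz0)).const_mul _
    have h3 := (((hdG.sub (D.hderiv z hz0)).sub h2).sub h1)
    refine h3.congr_deriv ?_
    have hΨz : Ψ z ≠ 0 := by
      intro h0
      have := hsl z hz.2
      rw [h0, zero_div] at this
      exact Complex.zero_notMem_slitPlane this
    have hΦz : Φ z = z ^ n * Ψ z := hΨf z
    have hΦd : deriv Φ z = n * z ^ (n - 1) * Ψ z + z ^ n * deriv Ψ z := by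
      have e : Φ = fun z => z ^ n * Ψ z := funext hΨf
      rw [e]
      exact ((hasDerivAt_pow n z).mul hdΨ).deriv
    unfold Qf
    rw [hΦd, hΦz]
    have hzn : z ^ n ≠ 0 := pow_ne_zero _ hzne
    rcases Nat.eq_zero_or_pos n with h0 | hpos
    · subst h0
      simp only [pow_zero, Nat.cast_zero, zero_mul, one_mul, zero_add, sub_zero]
      field_simp
      ring
    · have e1 : z ^ n = z ^ (n - 1) * z := by
        rw [← pow_succ, Nat.sub_add_cancel hpos]
      have hzn1 : z ^ (n - 1) ≠ 0 := pow_ne_zero _ hzne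
      rw [e1]
      field_simp
      ring
  have hz1 : ((ρ / 2 : ℝ) : ℂ) ∈ U := by
    refine ⟨?_, ?_⟩
    · show 0 < ((ρ / 2 : ℝ) : ℂ).re
      rw [Complex.ofReal_re]
      positivity
    · rw [mem_ball_zero_iff, Complex.norm_real, Real.norm_of_nonneg (by positivity)]
      linarith
  have hconst : ∀ z ∈ U, h z = h ((ρ / 2 : ℝ) : ℂ) := by
    have h1 : EqOn h (fun _ => h ((ρ / 2 : ℝ) : ℂ)) U := by
      refine hUo.eqOn_of_deriv_eq hUc (fun z hz => (hd z hz).differentiableAt.differentiableWithinAt)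
        (differentiableOn_const _) (fun z hz => ?_) hz1 rfl
      rw [(hd z hz).deriv, deriv_const]
    exact fun z hz => h1 hz
  refine ⟨ρ, h ((ρ / 2 : ℝ) : ℂ), hρ, ?_, hsl, fun z hz hzρ => ?_⟩
  · set z : ℂ := ((ρ / 2 : ℝ) : ℂ) with hz
    have hz0 : 0 < z.re := hz1.1
    have hzne : z ≠ 0 := by
      intro h0
      rw [h0] at hz0
      simp at hz0
    have hΨz : Ψ z ≠ 0 := by
      intro h0
      have := hsl z hz1.2
      rw [h0, zero_div] at this
      exact Complex.zero_notMem_slitPlane this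
    have e1 : Complex.exp (h z) = Φ z / z ^ n / (Ψ z / Ψ 0) := by
      rw [hh]
      simp only
      rw [Complex.exp_sub, Complex.exp_sub, ← D.hexp z hz0, Complex.exp_nat_mul,
        Complex.exp_log hzne, Complex.exp_log (div_ne_zero hΨz hΨ0)]
    rw [e1, hΨf]
    have : z ^ n ≠ 0 := pow_ne_zero _ hzne
    field_simp
  · have hzU : z ∈ U := ⟨hz, by rwa [mem_ball_zero_iff]⟩
    rw [← hconst z hzU, hh]
    ring

/-- `f z + n log z → lam` with a linear error -/
structure Lin0 (Φ G f : ℂ → ℂ) (n : ℕ) (lam : ℂ) : Prop where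
  bd : ∃ ρ K : ℝ, 0 < ρ ∧ 0 ≤ K ∧ ∀ z : ℂ, 0 < z.re → ‖z‖ < ρ →
    ‖f z + n * Complex.log z - lam‖ ≤ K * ‖z‖
  val : ∀ Ψ : ℂ → ℂ, Differentiable ℂ Ψ → (∀ u, Φ u = u ^ n * Ψ u) → Ψ 0 = Complex.exp (G 0 - lam)

theorem lin0 (D : Cont c Φ G f) (E : Eul c Φ G) (hG0 : DifferentiableAt ℂ G 0) {n : ℕ}
    (hn : analyticOrderAt Φ 0 = n) : ∃ lam : ℂ, Lin0 Φ G f n lam := by
  obtain ⟨Ψ, hΨ, hΨ0, hΨf'⟩ := factor E.hΦ hn
  have hΨf : ∀ u, Φ u = u ^ n * Ψ u := fun u => by
    have := hΨf' u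
    rwa [sub_zero] at this
  obtain ⟨ρ, h0, hρ, hexp, hsl, hf⟩ := local_form D E hΨ hΨ0 hΨf
  refine ⟨G 0 - h0, ?_, ?_⟩
  · have h1 : DifferentiableAt ℂ (fun z => G z - Complex.log (Ψ z / Ψ 0)) 0 := by
      refine hG0.sub (DifferentiableAt.clog ((hΨ 0).div_const _) ?_)
      exact hsl 0 (Metric.mem_ball_self hρ)
    have h2 := h1.isBigO_sub
    obtain ⟨K, hK⟩ := h2.bound
    obtain ⟨ρ', hρ', hb⟩ := Metric.eventually_nhds_iff_ball.1 hK
    refine ⟨min ρ ρ', |K|, lt_min hρ hρ', abs_nonneg _, fun z hz hzn => ?_⟩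
    have h3 := hb z (by rw [mem_ball_zero_iff]; exact hzn.trans_le (min_le_right _ _))
    simp only [div_self hΨ0, Complex.log_one, sub_zero] at h3
    rw [hf z hz (hzn.trans_le (min_le_left _ _))]
    have e1 : G z - h0 - n * Complex.log z - Complex.log (Ψ z / Ψ 0) + n * Complex.log z -
        (G 0 - h0) = G z - Complex.log (Ψ z / Ψ 0) - G 0 := by ring
    rw [e1]
    refine h3.trans ?_
    gcongr
    exact le_abs_self K
  · intro Ψ' hΨ' hf'
    have h1 : Ψ' 0 = Ψ 0 := by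
      have h2 : Ψ' =ᶠ[𝓝[≠] 0] Ψ := by
        filter_upwards [self_mem_nhdsWithin] with u hu
        have hu0 : u ^ n ≠ 0 := pow_ne_zero _ hu
        have h3 := (hf' u).symm.trans (hΨf u)
        exact mul_left_cancel₀ hu0 h3
      have h3 : Tendsto Ψ' (𝓝[≠] 0) (𝓝 (Ψ' 0)) := (hΨ'.continuous.tendsto 0).mono_left
        nhdsWithin_le_nhds
      have h4 : Tendsto Ψ (𝓝[≠] 0) (𝓝 (Ψ 0)) := (hΨ.continuous.tendsto 0).mono_left
        nhdsWithin_le_nhds
      exact tendsto_nhds_unique (h3.congr' h2) h4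
    rw [h1, ← hexp]
    congr 1
    ring

/-- the real limit -/
theorem Lin0.tendsto {n : ℕ} {lam : ℂ} (h : Lin0 Φ G f n lam) :
    Tendsto (fun x : ℝ => f x + n * (Real.log x : ℂ)) (𝓝[>] 0) (𝓝 lam) := by
  obtain ⟨ρ, K, hρ, hK, hb⟩ := h.bd
  rw [tendsto_iff_norm_sub_tendsto_zero]
  refine squeeze_zero' (g := fun x : ℝ => K * x) (Eventually.of_forall fun x => norm_nonneg _) ?_ ?_
  · filter_upwards [Ioo_mem_nhdsGT hρ] with x hx
    have h1 := hb x (by simpa using hx.1) (by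
      rw [Complex.norm_real, Real.norm_of_nonneg hx.1.le]
      exact hx.2)
    rw [Complex.norm_real, Real.norm_of_nonneg hx.1.le, ← Complex.ofReal_log hx.1.le] at h1
    exact h1
  · have : Tendsto (fun x : ℝ => K * x) (𝓝 0) (𝓝 (K * 0)) := tendsto_id.const_mul K
    rw [mul_zero] at this
    exact this.mono_left nhdsWithin_le_nhds

/-- the continuation is real on the real axis -/
theorem real_axis (D : Cont c Φ G f) {x : ℝ} (hx : 0 < x) :
    (starRingEnd ℂ) (f x) = f x := by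
  have h1 : AnalyticOnNhd ℂ f {z : ℂ | 0 < z.re} :=
    DifferentiableOn.analyticOnNhd (fun z hz => (D.hderiv z hz).differentiableAt.differentiableWithinAt)
      (isOpen_half 0)
  have h2 : AnalyticOnNhd ℂ (fun z => (starRingEnd ℂ) (f ((starRingEnd ℂ) z))) {z : ℂ | 0 < z.re} := by
    refine DifferentiableOn.analyticOnNhd (fun z hz => ?_) (isOpen_half 0)
    have hz' : 0 < ((starRingEnd ℂ) z).re := by
      rw [Complex.conj_re]
      exact hz
    have h3 := (D.hderiv _ hz').differentiableAt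
    have h4 := (differentiableAt_conj_conj_iff (f := f) (x := z)).2 h3
    exact h4.differentiableWithinAt
  have hreal : ∀ z : ℂ, 1 < z.re → f z = (starRingEnd ℂ) (f ((starRingEnd ℂ) z)) := by
    intro z hz
    rw [D.heq z hz, D.heq _ (by rwa [Complex.conj_re])]
    unfold ff
    rw [Complex.conj_tsum]
    refine tsum_congr fun p => ?_
    rw [map_mul, Complex.conj_ofReal, ← Complex.exp_conj, map_neg, map_mul, Complex.conj_ofReal,
      Complex.conj_conj]
  have h3 := h1.eqOn_of_preconnected_of_eventuallyEq h2 (convex_half 0).isPreconnected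
    (z₀ := 2) (by show (0 : ℝ) < (2 : ℂ).re; norm_num) (by
      filter_upwards [(isOpen_half 1).mem_nhds (show (2 : ℂ) ∈ {z : ℂ | 1 < z.re} by
        show (1 : ℝ) < (2 : ℂ).re; norm_num)] with z hz
      exact hreal z hz)
  have h4 := h3 (show (x : ℂ) ∈ {z : ℂ | 0 < z.re} by simpa using hx)
  simp only [Complex.conj_ofReal] at h4
  exact h4.symm

theorem Lin0.real (D : Cont c Φ G f) {n : ℕ} {lam : ℂ} (h : Lin0 Φ G f n lam) :
    lam = (lam.re : ℂ) := by
  have h1 := h.tendsto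
  have h2 : Tendsto (fun x : ℝ => (starRingEnd ℂ) (f x + n * (Real.log x : ℂ))) (𝓝[>] 0)
      (𝓝 ((starRingEnd ℂ) lam)) := (Complex.continuous_conj.tendsto lam).comp h1
  have h3 : Tendsto (fun x : ℝ => f x + n * (Real.log x : ℂ)) (𝓝[>] 0)
      (𝓝 ((starRingEnd ℂ) lam)) := by
    refine h2.congr' ?_
    filter_upwards [self_mem_nhdsWithin] with x hx
    rw [map_add, real_axis D hx, map_mul, Complex.conj_ofReal, Complex.conj_natCast]
  have h4 := tendsto_nhds_unique h3 h1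
  exact (Complex.conj_eq_iff_re.1 h4).symm

end Pool.Agent.L0h3.LC
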