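import Pool.Agent.L0h3.LC.Lead

/-! The Laplace transform at the origin. -/

set_option autoImplicit false

namespace Pool.Agent.L0h3.LC

open MeasureTheory Filter Topology Set Classical
open Pool.Agent.L0h3.WB

variable {c : ℕ → ℝ} {Φ G f : ℂ → ℂ} {w : ℝ → ℂ} {B : ℝ}

/-- exponential decay of the series -/
theorem ff_exp (h : Co c) : ∃ M : ℝ, 0 ≤ M ∧ ∀ u : ℂ, 4 ≤ u.re → ‖ff c u‖ ≤ M * Real.exp (-u.re) := by
  refine ⟨(∑' p : ℕ, (p : ℝ) ^ (-2 : ℝ)) * Real.exp 4, by positivity, fun u hu => ?_⟩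
  have hs : Summable fun p : ℕ => (p : ℝ) ^ (-2 : ℝ) := Real.summable_nat_rpow.mpr (by norm_num)
  have hb : ∀ p : ℕ, ‖(c p : ℂ) * Complex.exp (-(u * Real.log p))‖ ≤
      (p : ℝ) ^ (-2 : ℝ) * (Real.exp 4 * Real.exp (-u.re)) := by
    intro p
    by_cases h0 : c p = 0
    · rw [h0, Complex.ofReal_zero, zero_mul, norm_zero]
      positivity
    · have hp := h.big p h0
      have hp3 : (3 : ℝ) ≤ p := by exact_mod_cast hp
      have hp0 : (0 : ℝ) < p := by linarith
      have hl : 1 ≤ Real.log p := by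
        rw [Real.le_log_iff_exp_le hp0]
        linarith [Real.exp_one_lt_d9]
      rw [norm_mul, Complex.norm_real, Real.norm_eq_abs, norm_exp_log]
      have e1 : Real.exp (-(u.re * Real.log p)) ≤
          (p : ℝ) ^ (-2 : ℝ) * (Real.exp 4 * Real.exp (-u.re)) := by
        rw [Real.rpow_def_of_pos hp0, ← Real.exp_add, ← Real.exp_add]
        apply Real.exp_le_exp.2
        nlinarith
      calc |c p| * Real.exp (-(u.re * Real.log p)) ≤
          1 * ((p : ℝ) ^ (-2 : ℝ) * (Real.exp 4 * Real.exp (-u.re))) :=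
            mul_le_mul (h.le_one p) e1 (by positivity) zero_le_one
        _ = _ := one_mul _
  have h1 := tsum_of_norm_bounded (hs.mul_right (Real.exp 4 * Real.exp (-u.re))).hasSum hb
  rw [tsum_mul_right] at h1
  unfold ff
  calc _ ≤ _ := h1
    _ = _ := by ring

theorem f_tendsto (D : Cont c Φ G f) (E : Eul c Φ G) :
    Tendsto (fun x : ℝ => f x) atTop (𝓝 0) := by
  obtain ⟨M, hM0, hM⟩ := ff_exp E.co
  refine squeeze_zero_norm' (a := fun x => M * Real.exp (-x)) ?_ ?_
  · filter_upwards [eventually_ge_atTop (4 : ℝ)] with x hx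
    have h1 := hM x (by simpa using hx)
    rw [Complex.ofReal_re] at h1
    rw [D.heq x (by simpa using (by linarith : 1 < x))]
    exact h1
  · have := (Real.tendsto_exp_atBot.comp tendsto_neg_atTop_atBot).const_mul M
    simpa using this

theorem Qf_tail (D : Cont c Φ G f) (E : Eul c Φ G) (hnz : ∀ z : ℂ, 0 < z.re → Φ z ≠ 0) {C : ℝ}
    (h2 : ∀ u : ℝ, 1 ≤ u → ‖Qf Φ G u‖ ≤ C / u ^ 2) {x : ℝ} (hx : 0 < x) :
    ∫ u in Ioi x, Qf Φ G (u : ℝ) = -f x := by
  have hd : ∀ u ∈ Ici x, HasDerivAt (fun u : ℝ => f u) (Qf Φ G u) u := by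
    intro u hu
    have hu0 : 0 < u := hx.trans_le hu
    exact (D.hderiv u (by simpa using hu0)).comp_ofReal
  rw [integral_Ioi_of_hasDerivAt_of_tendsto' hd (E.Qf_int hnz h2 hx) (f_tendsto D E)]
  ring

/-- the regular part of `Qf` -/
noncomputable def Rr (Φ G : ℂ → ℂ) (n : ℕ) (u : ℝ) : ℂ :=
  Qf Φ G u + if u < 1 then (n : ℂ) / u else 0

theorem Rr_int (E : Eul c Φ G) (hGe : Differentiable ℂ G) (hnz : ∀ z : ℂ, 0 < z.re → Φ z ≠ 0)
    {n : ℕ} (hn : analyticOrderAt Φ 0 = n) {C : ℝ}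
    (h2 : ∀ u : ℝ, 1 ≤ u → ‖Qf Φ G u‖ ≤ C / u ^ 2) :
    IntegrableOn (Rr Φ G n) (Ioi 0) := by
  obtain ⟨Ψ, hΨ, hΨ0, hΨf⟩ := factor E.hΦ hn
  have hΨp : ∀ u : ℝ, 0 ≤ u → Ψ u ≠ 0 := by
    intro u hu
    rcases hu.lt_or_eq with h | h
    · intro h2
      refine hnz u (by simpa using h) ?_
      rw [hΨf, h2, mul_zero]
    · rw [← h]
      simpa using hΨ0
  have hΨd : Differentiable ℂ (deriv Ψ) := fun u => ((hΨ.analyticAt u).deriv).differentiableAt
  have hGd : Differentiable ℂ (deriv G) := fun u => ((hGe.analyticAt u).deriv).differentiableAt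
  have hcont : ContinuousOn (fun u : ℝ => deriv G u - deriv Ψ u / Ψ u) (Icc 0 1) := by
    intro u hu
    refine ContinuousAt.continuousWithinAt ?_
    have h0 : ContinuousAt (fun u : ℝ => deriv G (u : ℂ)) u :=
      ((hGd _).continuousAt).comp Complex.continuous_ofReal.continuousAt
    have h1 : ContinuousAt (fun u : ℝ => deriv Ψ (u : ℂ)) u :=
      ((hΨd _).continuousAt).comp Complex.continuous_ofReal.continuousAt
    have h2 : ContinuousAt (fun u : ℝ => Ψ (u : ℂ)) u :=
      ((hΨ _).continuousAt).comp Complex.continuous_ofReal.continuousAt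
    exact h0.sub (h1.div h2 (hΨp u hu.1))
  have hu : Ioi (0 : ℝ) = Ioo 0 1 ∪ Ici 1 := by
    ext u
    simp only [mem_Ioi, mem_union, mem_Ioo, mem_Ici]
    constructor
    · intro h
      rcases lt_or_ge u 1 with h1 | h1
      · exact Or.inl ⟨h, h1⟩
      · exact Or.inr h1
    · rintro (h | h)
      · exact h.1
      · linarith
  rw [hu]
  refine IntegrableOn.union ?_ ?_
  · have h1 : IntegrableOn (fun u : ℝ => deriv G u - deriv Ψ u / Ψ u) (Ioo 0 1) :=
      (hcont.integrableOn_Icc).mono_set Ioo_subset_Icc_self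
    refine h1.congr_fun (fun u hu => ?_) measurableSet_Ioo
    have hu0 : 0 < u := hu.1
    show _ = Rr Φ G n u
    unfold Rr Qf
    rw [if_pos hu.2, log_deriv_factor hΨ hΨf (by exact_mod_cast hu0.ne') (hΨp u hu0.le), sub_zero]
    ring
  · have h1 := E.Qf_int hnz h2 (by norm_num : (0 : ℝ) < 1 / 2)
    have h3 : IntegrableOn (fun u : ℝ => Qf Φ G u) (Ici 1) :=
      h1.mono_set fun u hu => lt_of_lt_of_le (by norm_num : (1 / 2 : ℝ) < 1) hu
    refine h3.congr_fun (fun u hu => ?_) measurableSet_Ici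
    show _ = Rr Φ G n u
    unfold Rr
    rw [if_neg (not_lt.2 hu), add_zero]

/-- the constant of a weight -/
noncomputable def cW (w : ℝ → ℂ) (w0 : ℂ) : ℂ := ∫ v in Ioo (0 : ℝ) 1, (w v - w0) / (v : ℂ)

/-- Dini's condition -/
def Dini (w : ℝ → ℂ) (w0 : ℂ) : Prop := IntegrableOn (fun v : ℝ => (w v - w0) / (v : ℂ)) (Ioo 0 1)

/-- **The Laplace transform at the origin.** -/
theorem lead (D : Cont c Φ G f) (E : Eul c Φ G) (hGe : Differentiable ℂ G)
    (hsec : ∀ R : ℝ, 0 ≤ R → ∃ C : ℝ, ∀ v : ℂ, 0 < v.re → ‖v‖ ≤ R * v.re → ‖G v‖ ≤ C)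
    (hwm : Measurable w) (hB : ∀ y ∈ Icc (0 : ℝ) 1, ‖w y‖ ≤ B)
    (hnz : ∀ z : ℂ, 0 < z.re → Φ z ≠ 0) (hd : ∀ z : ℂ, 0 < z.re → DifferentiableAt ℂ (LT c w) z)
    {n : ℕ} (hn : analyticOrderAt Φ 0 = n) {lam : ℂ} (hL : Lin0 Φ G f n lam) {w0 : ℂ}
    (hw0 : Tendsto w (𝓝[>] 0) (𝓝 w0)) (hdini : Dini w w0) :
    Tendsto (fun x : ℝ => (x : ℂ) * LT c w x + w0 * n * (Real.log x : ℂ)) (𝓝[>] 0)
      (𝓝 (w0 * lam + n * cW w w0)) := by
  have hB0 : 0 ≤ B := (norm_nonneg _).trans (hB 0 ⟨le_rfl, zero_le_one⟩)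
  obtain ⟨C, hC0, hC1, hC2, hC3⟩ := E.Qf_small hsec hnz hn
  have hRi := Rr_int E hGe hnz hn hC2
  set B' : ℝ := B + ‖w0‖ with hB'
  have hB'0 : 0 ≤ B' := by positivity
  have hxu : ∀ x : ℝ, 0 < x → ∀ u ∈ Ioi x, x / u ∈ Ioo (0 : ℝ) 1 := by
    intro x hx u hu
    have hu0 : 0 < u := hx.trans hu
    exact ⟨by positivity, (div_lt_one hu0).2 hu⟩
  have hwb : ∀ x : ℝ, 0 < x → ∀ u ∈ Ioi x, ‖w (x / u) - w0‖ ≤ B' := by
    intro x hx u hu
    have h3 := hxu x hx u hu
    refine (norm_sub_le _ _).trans ?_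
    have := hB _ ⟨h3.1.le, h3.2.le⟩
    rw [hB']
    linarith
  have hwme : ∀ x : ℝ, Measurable fun u : ℝ => w (x / u) - w0 := fun x =>
    (hwm.comp (by fun_prop : Measurable fun u : ℝ => x / u)).sub_const _
  -- first limit
  have lim1 : Tendsto (fun x : ℝ => ∫ u in Ioi (0 : ℝ), (Ioi x).indicator
      (fun u : ℝ => (w (x / u) - w0) * Rr Φ G n u) u) (𝓝[>] 0) (𝓝 (∫ _u in Ioi (0 : ℝ), (0 : ℂ))) := by
    refine tendsto_integral_filter_of_dominated_convergence (fun u => B' * ‖Rr Φ G n u‖) ?_ ?_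
      (hRi.norm.const_mul B') ?_
    · refine Eventually.of_forall fun x => ?_
      exact (((hwme x).aestronglyMeasurable).mul hRi.aestronglyMeasurable).indicator measurableSet_Ioi
    · filter_upwards [self_mem_nhdsWithin] with x hx
      refine Eventually.of_forall fun u => ?_
      by_cases hu : u ∈ Ioi x
      · rw [indicator_of_mem hu, norm_mul]
        exact mul_le_mul_of_nonneg_right (hwb x hx u hu) (norm_nonneg _)
      · rw [indicator_of_notMem hu, norm_zero]
        positivity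
    · filter_upwards [ae_restrict_mem measurableSet_Ioi] with u hu
      have hu0 : (0 : ℝ) < u := hu
      have h1 : Tendsto (fun x : ℝ => x / u) (𝓝[>] 0) (𝓝[>] 0) := by
        rw [tendsto_nhdsWithin_iff]
        constructor
        · have : Tendsto (fun x : ℝ => x / u) (𝓝 0) (𝓝 (0 / u)) := tendsto_id.div_const u
          rw [zero_div] at this
          exact this.mono_left nhdsWithin_le_nhds
        · filter_upwards [self_mem_nhdsWithin] with x hx
          have hx0 : (0 : ℝ) < x := hx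
          show 0 < x / u
          positivity
      have h2 := ((hw0.comp h1).sub_const w0).mul_const (Rr Φ G n u)
      rw [sub_self, zero_mul] at h2
      refine h2.congr' ?_
      filter_upwards [Ioo_mem_nhdsGT hu0] with x hx
      rw [indicator_of_mem (show u ∈ Ioi x from hx.2)]
      rfl
  rw [integral_zero] at lim1
  -- second limit
  have lim2 : Tendsto (fun x : ℝ => ∫ v in Ioo (0 : ℝ) 1, (Ioi x).indicator
      (fun v : ℝ => (w v - w0) / (v : ℂ)) v) (𝓝[>] 0) (𝓝 (cW w w0)) := by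
    refine tendsto_integral_filter_of_dominated_convergence (fun v => ‖(w v - w0) / (v : ℂ)‖) ?_ ?_
      hdini.norm ?_
    · exact Eventually.of_forall fun x => hdini.aestronglyMeasurable.indicator measurableSet_Ioi
    · refine Eventually.of_forall fun x => Eventually.of_forall fun v => ?_
      exact norm_indicator_le_norm_self _ _
    · filter_upwards [ae_restrict_mem measurableSet_Ioo] with v hv
      refine tendsto_const_nhds.congr' ?_
      filter_upwards [Ioo_mem_nhdsGT hv.1] with x hx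
      rw [indicator_of_mem (show v ∈ Ioi x from hx.2)]
  have lim3 := hL.tendsto
  have key := ((lim3.const_mul w0).sub lim1).add (lim2.const_mul (n : ℂ))
  rw [sub_zero] at key
  refine key.congr' ?_
  filter_upwards [self_mem_nhdsWithin, Ioo_mem_nhdsGT (zero_lt_one : (0 : ℝ) < 1)] with x hx hx'
  have hx0 : (0 : ℝ) < x := hx
  have hQi := E.Qf_int hnz hC2 hx0
  rw [E.LT_real hwm hB hnz hd hx0]
  have hRx : IntegrableOn (Rr Φ G n) (Ioi x) := hRi.mono_set (Ioi_subset_Ioi hx0.le)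
  have hWR : IntegrableOn (fun u : ℝ => (w (x / u) - w0) * Rr Φ G n u) (Ioi x) := by
    refine Integrable.bdd_mul (c := B') hRx ((hwme x).aestronglyMeasurable) ?_
    filter_upwards [ae_restrict_mem measurableSet_Ioi] with u hu using hwb x hx0 u hu
  have hWQ : IntegrableOn (fun u : ℝ => (w (x / u) - w0) * Qf Φ G u) (Ioi x) := by
    refine Integrable.bdd_mul (c := B') hQi ((hwme x).aestronglyMeasurable) ?_
    filter_upwards [ae_restrict_mem measurableSet_Ioi] with u hu using hwb x hx0 u hu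
  have e1 : ∫ u in Ioi (0 : ℝ), (Ioi x).indicator (fun u : ℝ => (w (x / u) - w0) * Rr Φ G n u) u =
      ∫ u in Ioi x, (w (x / u) - w0) * Rr Φ G n u := by
    rw [setIntegral_indicator measurableSet_Ioi]
    congr 2
    ext u
    simp only [mem_inter_iff, mem_Ioi]
    exact ⟨fun h => h.2, fun h => ⟨hx0.trans h, h⟩⟩
  have e2 : ∫ v in Ioo (0 : ℝ) 1, (Ioi x).indicator (fun v : ℝ => (w v - w0) / (v : ℂ)) v =
      ∫ u in Ioi x, (w (x / u) - w0) * (if u < 1 then (1 : ℂ) / u else 0) := by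
    rw [(subst_integral hx0 fun u => (w (x / u) - w0) * (if u < 1 then (1 : ℂ) / u else 0)).1]
    refine setIntegral_congr_fun measurableSet_Ioo fun y hy => ?_
    have hy0 : (0 : ℝ) < y := hy.1
    have e3 : x / (x / y) = y := by field_simp
    rw [e3, Complex.real_smul]
    by_cases h : x < y
    · rw [indicator_of_mem (show y ∈ Ioi x from h), if_pos ((div_lt_one hy0).2 h)]
      have h1 : (x : ℂ) ≠ 0 := by exact_mod_cast hx0.ne'
      have h2 : (y : ℂ) ≠ 0 := by exact_mod_cast hy0.ne'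
      push_cast
      field_simp
    · rw [indicator_of_notMem (show y ∉ Ioi x from h), if_neg fun h' => h ((div_lt_one hy0).1 h')]
      ring
  rw [e1, e2]
  have hWn : IntegrableOn (fun u : ℝ => (n : ℂ) * ((w (x / u) - w0) *
      (if u < 1 then (1 : ℂ) / u else 0))) (Ioi x) := by
    refine (hWR.sub hWQ).congr_fun (fun u _ => ?_) measurableSet_Ioi
    simp only [Pi.sub_apply]
    unfold Rr
    split_ifs <;> ring
  have e4 : ∫ u in Ioi x, -(w (x / u) * Qf Φ G u) =
      (n : ℂ) * (∫ u in Ioi x, (w (x / u) - w0) * (if u < 1 then (1 : ℂ) / u else 0)) -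
      (∫ u in Ioi x, (w (x / u) - w0) * Rr Φ G n u) - w0 * ∫ u in Ioi x, Qf Φ G (u : ℝ) := by
    rw [← integral_const_mul, ← integral_const_mul, ← integral_sub hWn hWR,
      ← integral_sub (f := fun u : ℝ => (n : ℂ) * ((w (x / u) - w0) *
      (if u < 1 then (1 : ℂ) / u else 0)) - (w (x / u) - w0) * Rr Φ G n u) (hWn.sub hWR)
      (hQi.const_mul w0)]
    refine setIntegral_congr_fun measurableSet_Ioi fun u _ => ?_
    unfold Rr
    split_ifs <;> ring
  rw [e4, Qf_tail D E hnz hC2 hx0]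
  ring

end Pool.Agent.L0h3.LC
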