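import Pool.Agent.L0h3.LC.Gen
import Pool.Agent.N41.RM.Bad

/-! Euler products over the primes of a number field. -/

set_option autoImplicit false

namespace Pool.Agent.L0h3.LC

open MeasureTheory Filter Topology Set Classical
open Pool.Agent.L0h3.WB
open Pool.Agent.N41.RM (EN fq cq)
open Pool.Agent.W189.ML (ser)

variable {P : Type} {N : ℕ}

/-- the integer `q_v^k` -/
def nn (qn : P → ℕ) (x : P × ℕ) : ℕ := qn x.1 ^ (x.2 + 1)

/-- the coefficients -/
noncomputable def cn (qn : P → ℕ) (a : P → Fin N → ℂ) (n : ℕ) : ℝ :=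
  -∑' x : {x : P × ℕ // nn qn x = n}, cq a x

/-- bounded multiplicities -/
def Cnt (qn : P → ℕ) (D : ℕ) : Prop :=
  ∀ n : ℕ, Finite {x : P × ℕ // nn qn x = n} ∧ Nat.card {x : P × ℕ // nn qn x = n} ≤ D

variable {qn : P → ℕ} {a : P → Fin N → ℂ} {D : ℕ} {Φ : ℂ → ℂ}

theorem fq_eq (x : P × ℕ) : fq (fun v => (qn v : ℝ)) x = Real.log (nn qn x : ℝ) := by
  unfold fq nn
  push_cast
  rw [Real.log_pow]
  push_cast
  ring

theorem qn_two (E : EN (fun v => (qn v : ℝ)) a) (v : P) : 2 ≤ qn v := by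
  exact_mod_cast E.two_le v

theorem nn_two (E : EN (fun v => (qn v : ℝ)) a) (x : P × ℕ) : 2 ≤ nn qn x := by
  unfold nn
  calc 2 ≤ qn x.1 := qn_two E x.1
    _ = qn x.1 ^ 1 := (pow_one _).symm
    _ ≤ _ := Nat.pow_le_pow_right (by have := qn_two E x.1; omega) (by omega)

theorem cq_nn (E : EN (fun v => (qn v : ℝ)) a) (x : P × ℕ) :
    |cq a x| ≤ N * (nn qn x : ℝ) ^ (-(1 / 2) : ℝ) := by
  refine (E.cq_le x).trans (le_of_eq ?_)
  unfold nn
  have h0 : (0 : ℝ) ≤ qn x.1 := Nat.cast_nonneg _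
  rw [← Real.rpow_natCast, ← Real.rpow_mul h0]
  push_cast
  rw [← Real.rpow_natCast, ← Real.rpow_mul h0]
  congr 2
  push_cast
  ring

theorem cn_le (E : EN (fun v => (qn v : ℝ)) a) (hD : Cnt qn D) {n : ℕ} :
    |cn qn a n| ≤ D * (N * (n : ℝ) ^ (-(1 / 2) : ℝ)) := by
  obtain ⟨h1, h2⟩ := hD n
  have : Fintype {x : P × ℕ // nn qn x = n} := Fintype.ofFinite _
  unfold cn
  rw [tsum_fintype, abs_neg]
  refine (Finset.abs_sum_le_sum_abs _ _).trans ?_
  have h3 : ∀ x : {x : P × ℕ // nn qn x = n}, |cq a x| ≤ N * (n : ℝ) ^ (-(1 / 2) : ℝ) := by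
    intro x
    have := cq_nn E x.1
    rwa [x.2] at this
  refine (Finset.sum_le_sum fun x _ => h3 x).trans ?_
  rw [Finset.sum_const, nsmul_eq_mul, Finset.card_univ, ← Nat.card_eq_fintype_card]
  have h4 : (Nat.card {x : P × ℕ // nn qn x = n} : ℝ) ≤ D := by exact_mod_cast h2
  have h5 : 0 ≤ (n : ℝ) ^ (-(1 / 2) : ℝ) := by positivity
  gcongr

/-- the bound for large `n` -/
theorem cn_small (E : EN (fun v => (qn v : ℝ)) a) (hD : Cnt qn D) {n : ℕ}
    (hn : max 3 ((D * N) ^ 2) ≤ n) : |cn qn a n| ≤ 1 := by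
  refine (cn_le E hD).trans ?_
  have hn3 : 3 ≤ n := (le_max_left _ _).trans hn
  have hn2 : (D * N) ^ 2 ≤ n := (le_max_right _ _).trans hn
  have hn0 : (0 : ℝ) < n := by exact_mod_cast (by omega : 0 < n)
  have h1 : ((D : ℝ) * N) ≤ √n := by
    apply Real.le_sqrt_of_sq_le
    exact_mod_cast hn2
  rw [Real.rpow_neg hn0.le, ← Real.sqrt_eq_rpow, ← mul_assoc, ← div_eq_mul_inv, div_le_one
    (Real.sqrt_pos.2 hn0)]
  exact h1

theorem cn_tsum (E : EN (fun v => (qn v : ℝ)) a) {u : ℂ} (hu : 1 / 2 < u.re) :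
    ser (fq fun v => (qn v : ℝ)) (cq a) u =
      -∑' n : ℕ, (cn qn a n : ℂ) * Complex.exp (-(u * Real.log n)) := by
  have hs := E.csummable hu
  have hs' := (Equiv.sigmaFiberEquiv (nn qn)).summable_iff.2 hs
  unfold ser
  rw [← (Equiv.sigmaFiberEquiv (nn qn)).tsum_eq, ← tsum_neg]
  have h1 := hs'.tsum_sigma
  refine h1.trans (tsum_congr fun n => ?_)
  have h2 : ∀ x : {x : P × ℕ // nn qn x = n}, (cq a ((Equiv.sigmaFiberEquiv (nn qn)) ⟨n, x⟩) : ℂ) *
      Complex.exp (-(u * fq (fun v => (qn v : ℝ)) ((Equiv.sigmaFiberEquiv (nn qn)) ⟨n, x⟩))) =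
      (cq a x : ℂ) * Complex.exp (-(u * Real.log n)) := by
    intro x
    have h3 : (Equiv.sigmaFiberEquiv (nn qn)) ⟨n, x⟩ = x.1 := rfl
    rw [h3, fq_eq, x.2]
  show ∑' x : {x : P × ℕ // nn qn x = n}, (cq a ((Equiv.sigmaFiberEquiv (nn qn)) ⟨n, x⟩) : ℂ) *
      Complex.exp (-(u * fq (fun v => (qn v : ℝ)) ((Equiv.sigmaFiberEquiv (nn qn)) ⟨n, x⟩))) = _
  rw [tsum_congr h2, tsum_mul_right]
  unfold cn
  push_cast
  ring

theorem gdat (E : EN (fun v => (qn v : ℝ)) a) (hD : Cnt qn D) (hΦ : Differentiable ℂ Φ)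
    (hF : ∀ u : ℂ, 1 < u.re → HasProd (fun v => ∏ j, (1 - a v j * ((qn v : ℝ) : ℂ) ^ (-u))⁻¹) (Φ u)) :
    GDat (cn qn a) (max 3 ((D * N) ^ 2)) Φ where
  big := fun n hn => by
    by_contra hlt
    push Not at hlt
    apply hn
    unfold cn
    have : IsEmpty {x : P × ℕ // nn qn x = n} := ⟨fun x => by
      have := nn_two E x.1
      rw [x.2] at this
      omega⟩
    simp
  three := le_max_left _ _
  bdd := fun n hn => cn_small E hD hn
  diff := hΦ
  eq := fun u hu => by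
    rw [(hF u hu).unique (E.hasProd (by linarith)), cn_tsum E (by linarith)]

/-- the weighted sums -/
noncomputable def wN (qn : P → ℕ) (a : P → Fin N → ℂ) (w : ℝ → ℂ) (X : ℝ) : ℂ :=
  ∑' x : P × ℕ, if (nn qn x : ℝ) ≤ X then (cq a x : ℂ) * w (Real.log (nn qn x : ℝ) / Real.log X) else 0

theorem fin_le (hD : Cnt qn D) (M : ℕ) : {x : P × ℕ | nn qn x ≤ M}.Finite := by
  have h1 : {x : P × ℕ | nn qn x ≤ M} = ⋃ n ∈ Finset.range (M + 1), {x : P × ℕ | nn qn x = n} := by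
    ext x
    simp only [Set.mem_ofPred_eq, Finset.mem_range, mem_iUnion, exists_prop]
    constructor
    · intro h
      exact ⟨nn qn x, by omega, rfl⟩
    · rintro ⟨n, hn, h⟩
      omega
  rw [h1]
  refine Set.Finite.biUnion (Finset.finite_toSet _) fun n _ => ?_
  have : Finite {x : P × ℕ | nn qn x = n} := (hD n).1
  exact Set.toFinite _

theorem wN_eq (hD : Cnt qn D) (w : ℝ → ℂ) {X : ℝ} (hX : 0 ≤ X) :
    wN qn a w X = wG (cn qn a) w X := by
  set g : P × ℕ → ℂ := fun x => if (nn qn x : ℝ) ≤ X then (cq a x : ℂ) *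
    w (Real.log (nn qn x : ℝ) / Real.log X) else 0 with hg
  have hsupp : Function.support g ⊆ {x : P × ℕ | nn qn x ≤ ⌊X⌋₊} := by
    intro x hx
    rw [Function.mem_support, hg] at hx
    by_contra hcon
    apply hx
    simp only
    rw [if_neg]
    intro h
    exact hcon (Nat.le_floor h)
  have hs : Summable g := summable_of_hasFiniteSupport ((fin_le hD _).subset hsupp)
  have hs' := (Equiv.sigmaFiberEquiv (nn qn)).summable_iff.2 hs
  unfold wN wG
  rw [← (Equiv.sigmaFiberEquiv (nn qn)).tsum_eq]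
  have h1 := hs'.tsum_sigma
  have h2 : ∀ n : ℕ, ∑' x : {x : P × ℕ // nn qn x = n}, g ((Equiv.sigmaFiberEquiv (nn qn)) ⟨n, x⟩) =
      if (n : ℝ) ≤ X then -((cn qn a n : ℂ) * w (Real.log n / Real.log X)) else 0 := by
    intro n
    have h3 : ∀ x : {x : P × ℕ // nn qn x = n}, g ((Equiv.sigmaFiberEquiv (nn qn)) ⟨n, x⟩) =
        if (n : ℝ) ≤ X then (cq a x : ℂ) * w (Real.log n / Real.log X) else 0 := by
      intro x
      have h3 : (Equiv.sigmaFiberEquiv (nn qn)) ⟨n, x⟩ = x.1 := rfl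
      rw [h3, hg]
      simp only
      rw [x.2]
    rw [tsum_congr h3]
    split_ifs with h
    · rw [tsum_mul_right]
      unfold cn
      push_cast
      ring
    · exact tsum_zero
  refine (h1.trans (tsum_congr h2)).trans ?_
  rw [tsum_eq_sum (s := Finset.range (⌊X⌋₊ + 1))]
  · rw [← Finset.sum_neg_distrib]
    refine Finset.sum_congr rfl fun n hn => ?_
    rw [Finset.mem_range] at hn
    rw [if_pos]
    exact (Nat.le_floor_iff hX).1 (by omega)
  · intro n hn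
    rw [Finset.mem_range] at hn
    rw [if_neg]
    intro h
    have := Nat.le_floor h
    omega

/-! ### The primes of a number field -/

section nf

open NumberField IsDedekindDomain
open Pool.Agent.TH339.MP (nm pr dg Sp nm_eq dg_pos two_le_nm mem_Sp sum_dg_le)

theorem cnt_nf (K : Type) [Field K] [NumberField K] :
    Cnt (fun v : HeightOneSpectrum (𝓞 K) => Ideal.absNorm v.asIdeal) (Module.finrank ℚ K) := by
  intro n
  have hpr : ∀ x y : HeightOneSpectrum (𝓞 K) × ℕ,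
      nn (fun v : HeightOneSpectrum (𝓞 K) => Ideal.absNorm v.asIdeal) x = n →
      nn (fun v : HeightOneSpectrum (𝓞 K) => Ideal.absNorm v.asIdeal) y = n →
      pr x.1 = pr y.1 := by
    intro x y hx hy
    have h1 : nm x.1 ^ (x.2 + 1) = nm y.1 ^ (y.2 + 1) := hx.trans hy.symm
    rw [nm_eq, nm_eq, ← pow_mul, ← pow_mul] at h1
    have h2 : ((pr x.1 : Nat.Primes) : ℕ) ∣ ((pr y.1 : Nat.Primes) : ℕ) := by
      refine (pr x.1).2.dvd_of_dvd_pow (n := dg y.1 * (y.2 + 1)) ?_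
      rw [← h1]
      exact dvd_pow_self _ (Nat.mul_ne_zero (dg_pos x.1).ne' (Nat.succ_ne_zero _))
    exact Subtype.ext ((Nat.prime_dvd_prime_iff_eq (pr x.1).2 (pr y.1).2).1 h2)
  have hinj : ∀ x y : HeightOneSpectrum (𝓞 K) × ℕ,
      nn (fun v : HeightOneSpectrum (𝓞 K) => Ideal.absNorm v.asIdeal) x = n →
      nn (fun v : HeightOneSpectrum (𝓞 K) => Ideal.absNorm v.asIdeal) y = n →
      x.1 = y.1 → x = y := by
    intro x y hx hy hxy
    have h1 : nm x.1 ^ (x.2 + 1) = nm y.1 ^ (y.2 + 1) := hx.trans hy.symm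
    rw [← hxy] at h1
    have h2 := Nat.pow_right_injective (two_le_nm x.1) h1
    exact Prod.ext hxy (by omega)
  rcases isEmpty_or_nonempty {x : HeightOneSpectrum (𝓞 K) × ℕ //
    nn (fun v : HeightOneSpectrum (𝓞 K) => Ideal.absNorm v.asIdeal) x = n} with he | ⟨⟨x0, hx0⟩⟩
  · exact ⟨inferInstance, by simp⟩
  · have hmap : Function.Injective fun x : {x : HeightOneSpectrum (𝓞 K) × ℕ //
        nn (fun v : HeightOneSpectrum (𝓞 K) => Ideal.absNorm v.asIdeal) x = n} =>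
        (⟨x.1.1, (mem_Sp (pr x0.1) x.1.1).2 (hpr _ _ x.2 hx0)⟩ : Sp (K := K) (pr x0.1)) := by
      intro x y hxy
      exact Subtype.ext (hinj _ _ x.2 y.2 (congrArg Subtype.val hxy))
    refine ⟨Finite.of_injective _ hmap, (Nat.card_le_card_of_injective _ hmap).trans ?_⟩
    rw [Nat.card_eq_fintype_card, Fintype.card_coe]
    refine le_trans ?_ (sum_dg_le (K := K) (pr x0.1))
    rw [Finset.card_eq_sum_ones]
    exact Finset.sum_le_sum fun v _ => dg_pos v

end nf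

end Pool.Agent.L0h3.LC
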