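import Pool.Agent.L0h3.LC.Curve

/-! Counting points. -/

set_option autoImplicit false

namespace Pool.Agent.L0h3.LC

/-- the number of the affine points of the reduction modulo `p` -/
noncomputable def affCount (W : WeierstrassCurve ℤ) (p : ℕ) : ℕ :=
  Nat.card {P : ZMod p × ZMod p // P.2 ^ 2 + (W.a₁ : ZMod p) * P.1 * P.2 + (W.a₃ : ZMod p) * P.2 =
    P.1 ^ 3 + (W.a₂ : ZMod p) * P.1 ^ 2 + (W.a₄ : ZMod p) * P.1 + (W.a₆ : ZMod p)}

theorem quad_le {K : Type} [Field K] [Fintype K] [DecidableEq K] (b c : K) :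
    (Finset.univ.filter fun y : K => y ^ 2 + b * y = c).card ≤ 2 := by
  have h0 : ∀ y z : K, y ^ 2 + b * y = c → z ^ 2 + b * z = c → y ≠ z → y + z = -b := by
    intro y z hy hz hyz
    have h1 : (y - z) * (y + z + b) = 0 := by
      have : (y - z) * (y + z + b) = (y ^ 2 + b * y) - (z ^ 2 + b * z) := by ring
      rw [this, hy, hz, sub_self]
    rcases mul_eq_zero.1 h1 with h2 | h2
    · exact absurd (sub_eq_zero.1 h2) hyz
    · exact eq_neg_of_add_eq_zero_left h2
  rcases (Finset.univ.filter fun y : K => y ^ 2 + b * y = c).eq_empty_or_nonempty with h | ⟨y, hy⟩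
  · rw [h]; simp
  · have hy' := (Finset.mem_filter.1 hy).2
    have hsub : (Finset.univ.filter fun y : K => y ^ 2 + b * y = c) ⊆ {y, -b - y} := by
      intro z hz
      have hz' := (Finset.mem_filter.1 hz).2
      rw [Finset.mem_insert, Finset.mem_singleton]
      by_cases h : z = y
      · exact Or.inl h
      · right
        have := h0 z y hz' hy' h
        rw [← this]
        ring
    exact (Finset.card_le_card hsub).trans Finset.card_le_two

theorem affCount_le (W : WeierstrassCurve ℤ) {p : ℕ} (hp : p.Prime) : affCount W p ≤ 2 * p := by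
  have : Fact p.Prime := ⟨hp⟩
  unfold affCount
  rw [Nat.card_eq_fintype_card, Fintype.card_subtype]
  set S := Finset.univ.filter fun P : ZMod p × ZMod p => P.2 ^ 2 + (W.a₁ : ZMod p) * P.1 * P.2 +
    (W.a₃ : ZMod p) * P.2 = P.1 ^ 3 + (W.a₂ : ZMod p) * P.1 ^ 2 + (W.a₄ : ZMod p) * P.1 +
    (W.a₆ : ZMod p) with hS
  have h1 : S.card = ∑ x : ZMod p, (S.filter fun P => P.1 = x).card :=
    Finset.card_eq_sum_card_fiberwise fun _ _ => Finset.mem_univ _
  rw [h1]
  have h2 : ∀ x : ZMod p, (S.filter fun P => P.1 = x).card ≤ 2 := by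
    intro x
    refine le_trans ?_ (quad_le ((W.a₁ : ZMod p) * x + (W.a₃ : ZMod p))
      (x ^ 3 + (W.a₂ : ZMod p) * x ^ 2 + (W.a₄ : ZMod p) * x + (W.a₆ : ZMod p)))
    refine Finset.card_le_card_of_injOn (fun P => P.2) ?_ ?_
    · intro P hP
      rw [Finset.mem_coe, Finset.mem_filter, hS, Finset.mem_filter] at hP
      rw [Finset.mem_coe, Finset.mem_filter]
      refine ⟨Finset.mem_univ _, ?_⟩
      rw [← hP.2, ← hP.1.2]
      ring
    · intro P hP Q hQ h
      rw [Finset.mem_coe, Finset.mem_filter] at hP hQ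
      exact Prod.ext (hP.2.trans hQ.2.symm) h
  calc ∑ x : ZMod p, (S.filter fun P => P.1 = x).card ≤ ∑ _x : ZMod p, 2 :=
        Finset.sum_le_sum fun x _ => h2 x
    _ = 2 * p := by
        rw [Finset.sum_const, Finset.card_univ, ZMod.card, smul_eq_mul]
        ring

theorem dat_curve (W : WeierstrassCurve ℤ) :
    Dat (fun p => (p : ℤ) - affCount W p) (fun p => if (p : ℤ) ∣ W.Δ then 0 else p) where
  ha := fun p hp => by
    have h1 : (affCount W p : ℤ) ≤ 2 * p := by exact_mod_cast affCount_le W hp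
    have h2 : (0 : ℤ) ≤ affCount W p := by positivity
    rw [abs_le]
    constructor <;> linarith
  he := fun p _ => by
    split_ifs
    · exact Or.inl rfl
    · exact Or.inr rfl

end Pool.Agent.L0h3.LC
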