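import Pool.Agent.L0h3.LC.Ident

/-! The Riesz mean of order two under the Riemann hypothesis, with the constant and error `O(1/T)`. -/

set_option autoImplicit false

namespace Pool.Agent.L0h3.LC

open MeasureTheory Filter Topology Set Classical
open Pool.Agent.L0h3.WB

variable {c : ℕ → ℝ} {Φ G f : ℂ → ℂ}

theorem log_norm_le {z : ℂ} (hz : z ≠ 0) : ‖Complex.log z‖ ≤ ‖z‖ + ‖z‖⁻¹ + Real.pi := by
  have h0 : 0 < ‖z‖ := norm_pos_iff.2 hz
  refine (Complex.norm_le_abs_re_add_abs_im _).trans ?_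
  rw [Complex.log_re, Complex.log_im]
  refine add_le_add ?_ (Complex.abs_arg_le_pi z)
  rw [abs_le]
  have h1 := Real.log_le_sub_one_of_pos h0
  have h2 := Real.log_le_sub_one_of_pos (inv_pos.2 h0)
  rw [Real.log_inv] at h2
  have h3 : 0 < ‖z‖⁻¹ := inv_pos.2 h0
  constructor <;> linarith

/-- the kernel with the logarithm -/
noncomputable def lk (v : ℝ) : ℂ := Complex.log ((1 : ℂ) + (v : ℂ) * Complex.I) * kk 1 1 v

theorem lk_int : Integrable lk := by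
  have h1 : ∀ v : ℝ, ‖lk v‖ ≤ (Real.exp 1 * (2 + Real.pi)) * (1 ^ 2 + v ^ 2)⁻¹ := by
    intro v
    unfold lk
    rw [norm_mul, kk_norm one_pos, mul_one, Complex.ofReal_one]
    have hne : (1 : ℂ) + (v : ℂ) * Complex.I ≠ 0 := by
      have := line_ne one_pos v
      rwa [Complex.ofReal_one] at this
    have h2 : 1 ≤ ‖(1 : ℂ) + (v : ℂ) * Complex.I‖ := by
      refine le_trans ?_ (Complex.abs_re_le_norm _)
      simp
    have h3 := log_norm_le hne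
    have h4 : ‖Complex.log ((1 : ℂ) + (v : ℂ) * Complex.I)‖ ≤
        (2 + Real.pi) * ‖(1 : ℂ) + (v : ℂ) * Complex.I‖ := by
      have h5 : ‖(1 : ℂ) + (v : ℂ) * Complex.I‖⁻¹ ≤ 1 := inv_le_one_of_one_le₀ h2
      have := Real.pi_pos
      nlinarith
    have h6 : 0 < ‖(1 : ℂ) + (v : ℂ) * Complex.I‖ := by linarith
    calc ‖Complex.log ((1 : ℂ) + (v : ℂ) * Complex.I)‖ *
        (Real.exp 1 * (‖(1 : ℂ) + (v : ℂ) * Complex.I‖⁻¹ * (1 ^ 2 + v ^ 2)⁻¹)) ≤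
        ((2 + Real.pi) * ‖(1 : ℂ) + (v : ℂ) * Complex.I‖) *
        (Real.exp 1 * (‖(1 : ℂ) + (v : ℂ) * Complex.I‖⁻¹ * (1 ^ 2 + v ^ 2)⁻¹)) := by gcongr
      _ = (Real.exp 1 * (2 + Real.pi)) * (1 ^ 2 + v ^ 2)⁻¹ *
        (‖(1 : ℂ) + (v : ℂ) * Complex.I‖ * ‖(1 : ℂ) + (v : ℂ) * Complex.I‖⁻¹) := by ring
      _ = _ := by rw [mul_inv_cancel₀ h6.ne', mul_one]
  refine ((int_inv_sq one_pos).const_mul _).mono' ?_ (Eventually.of_forall h1)
  have h2 : Continuous fun v : ℝ => Complex.log ((1 : ℂ) + (v : ℂ) * Complex.I) := by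
    rw [continuous_iff_continuousAt]
    intro v
    refine ContinuousAt.clog (by fun_prop) ?_
    left
    simp
  exact (h2.mul (kk_cont one_pos 1)).aestronglyMeasurable

/-- the inverse Laplace transform of `z⁻³ log z`, up to a constant -/
theorem log_integral {T : ℝ} (hT : 0 < T) :
    Integrable (fun y : ℝ => Complex.log (((1 / T : ℝ) : ℂ) + (y : ℂ) * Complex.I) * kk (1 / T) T y) ∧
    ∫ y : ℝ, Complex.log (((1 / T : ℝ) : ℂ) + (y : ℂ) * Complex.I) * kk (1 / T) T y =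
      (T ^ 2 : ℝ) * ((∫ v : ℝ, lk v) - Real.pi * Real.log T) := by
  set x : ℝ := 1 / T with hx
  have hx0 : 0 < x := by positivity
  set h : ℝ → ℂ := fun y => Complex.log ((x : ℂ) + (y : ℂ) * Complex.I) * kk x T y with hh
  have hxT : x * T = 1 := by rw [hx]; field_simp
  have hxc : (x : ℂ) ≠ 0 := by exact_mod_cast hx0.ne'
  have e1 : ∀ v : ℝ, h (x * v) = ((x ^ 3)⁻¹ : ℝ) * (lk v + (Real.log x : ℂ) * kk 1 1 v) := by
    intro v
    have hne : (1 : ℂ) + (v : ℂ) * Complex.I ≠ 0 := by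
      have := line_ne one_pos v
      rwa [Complex.ofReal_one] at this
    have e2 : (x : ℂ) + ((x * v : ℝ) : ℂ) * Complex.I = (x : ℂ) * ((1 : ℂ) + (v : ℂ) * Complex.I) := by
      push_cast
      ring
    have e3 : kk x T (x * v) = ((x ^ 3)⁻¹ : ℝ) * kk 1 1 v := by
      unfold kk
      rw [e2]
      have e4 : (x : ℂ) * ((1 : ℂ) + (v : ℂ) * Complex.I) * T =
          (((1 : ℝ) : ℂ) + (v : ℂ) * Complex.I) * ((1 : ℝ) : ℂ) := by
        have : (x : ℂ) * T = 1 := by exact_mod_cast hxT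
        calc (x : ℂ) * ((1 : ℂ) + (v : ℂ) * Complex.I) * T =
            ((x : ℂ) * T) * ((1 : ℂ) + (v : ℂ) * Complex.I) := by ring
          _ = _ := by rw [this]; push_cast; ring
      rw [e4]
      push_cast
      field_simp
    rw [hh]
    simp only
    rw [e3, e2, Complex.log_ofReal_mul hx0 hne]
    unfold lk
    ring
  have hi1 : Integrable fun v : ℝ => h (x * v) := by
    have h2 : Integrable fun v : ℝ => ((x ^ 3)⁻¹ : ℝ) * (lk v + (Real.log x : ℂ) * kk 1 1 v) :=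
      (lk_int.add ((kk_int one_pos 1).const_mul _)).const_mul _
    exact h2.congr (Eventually.of_forall fun v => (e1 v).symm)
  have hi : Integrable h := (integrable_comp_mul_left_iff h hx0.ne').1 hi1
  refine ⟨hi, ?_⟩
  have h2 := Measure.integral_comp_mul_left h x
  have h3 : ∫ v : ℝ, h (x * v) = ((x ^ 3)⁻¹ : ℝ) * ((∫ v : ℝ, lk v) +
      (Real.log x : ℂ) * ((Real.pi : ℝ) : ℂ)) := by
    have h4 := kk_integral one_pos 1
    rw [max_eq_left zero_le_one, one_pow, mul_one] at h4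
    rw [← h4, ← integral_const_mul, ← integral_add lk_int ((kk_int one_pos 1).const_mul _),
      ← integral_const_mul]
    exact integral_congr_ae (Eventually.of_forall e1)
  rw [h3, abs_of_pos (inv_pos.2 hx0), Complex.real_smul] at h2
  have h5 : ∫ y : ℝ, h y = (x : ℂ) * (((x⁻¹ : ℝ) : ℂ) * ∫ y : ℝ, h y) := by
    push_cast
    field_simp
  rw [h5, ← h2]
  have h6 : Real.log x = -Real.log T := by rw [hx, one_div, Real.log_inv]
  have h7 : (x : ℂ) * (((x ^ 3)⁻¹ : ℝ) : ℂ) = ((T ^ 2 : ℝ) : ℂ) := by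
    rw [← Complex.ofReal_mul]
    congr 1
    rw [hx]
    field_simp
  rw [h6, ← mul_assoc, h7]
  push_cast
  ring

/-- **The Riesz mean with the constant.** -/
theorem riesz2 (D : Cont c Φ G f) (E : Eul c Φ G) (hGl : GLin G) (hΦ : PhiExp Φ) {n : ℕ}
    {lam : ℂ} (hL : Lin0 Φ G f n lam) : ∃ (κ : ℂ) (M : ℝ), 0 ≤ M ∧ ∀ T : ℝ, 1 ≤ T →
      ‖gT c rw2 T - (n * (Real.log T : ℂ) + κ)‖ ≤ M / T := by
  obtain ⟨K1, hK10, hK1⟩ := D.bound E hGl hΦ
  obtain ⟨ρ, K2, hρ, hK20, hK2⟩ := hL.bd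
  have hpi := Real.pi_pos
  set K3 : ℝ := K1 * (1 / ρ + 1) + n * (1 + 1 / ρ ^ 2 + Real.pi / ρ) + ‖lam‖ / ρ with hK3
  have hK30 : 0 ≤ K3 := by positivity
  set K : ℝ := K2 + K3 with hKd
  have hK0 : 0 ≤ K := by positivity
  refine ⟨lam - n * ((∫ v : ℝ, lk v) / Real.pi), K * Real.exp 1 * (1 + (1 + 1 / ρ ^ 2)),
    by positivity, fun T hT => ?_⟩
  have hT0 : 0 < T := by linarith
  have hx : (0 : ℝ) < 1 / T := by positivity
  set x : ℝ := 1 / T with hxd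
  have hx1 : x ≤ 1 := by
    rw [hxd, div_le_one hT0]
    exact hT
  have hxT : x * T = 1 := by rw [hxd]; field_simp
  have h1 := D.shift E hGl hΦ hT
  rw [E.co.perron (by norm_num), riesz_eq hT0, ← hxd] at h1
  have h2 := kk_integral hx T
  rw [max_eq_left hT0.le] at h2
  set Z : ℝ → ℂ := fun y => (x : ℂ) + (y : ℂ) * Complex.I with hZ
  have hZre : ∀ y, (Z y).re = x := fun y => by simp [hZ]
  have hZn : ∀ y, ‖Z y‖ ^ 2 = x ^ 2 + y ^ 2 := fun y => norm_sq_line x y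
  have hZ0 : ∀ y, 0 < ‖Z y‖ := fun y => norm_pos_iff.2 (line_ne hx y)
  set g : ℂ → ℂ := fun z => f z + n * Complex.log z - lam with hg
  have hgb : ∀ y : ℝ, ‖g (Z y)‖ * (x ^ 2 + y ^ 2)⁻¹ ≤
      K * ‖Z y‖ * ((x ^ 2 + y ^ 2)⁻¹ + T * ((1 + 1 / ρ ^ 2) * (1 ^ 2 + y ^ 2)⁻¹)) := by
    intro y
    have hsq : 0 < x ^ 2 + y ^ 2 := by positivity
    by_cases hc : ‖Z y‖ < ρ
    · have h3 := hK2 (Z y) (by rw [hZre]; exact hx) hc
      have h4 : ‖g (Z y)‖ ≤ K * ‖Z y‖ := by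
        refine h3.trans ?_
        rw [hKd]
        nlinarith [hZ0 y]
      calc ‖g (Z y)‖ * (x ^ 2 + y ^ 2)⁻¹ ≤ K * ‖Z y‖ * (x ^ 2 + y ^ 2)⁻¹ := by gcongr
        _ ≤ _ := by
          have h5 : 0 ≤ K * ‖Z y‖ * (T * ((1 + 1 / ρ ^ 2) * (1 ^ 2 + y ^ 2)⁻¹)) := by positivity
          rw [mul_add]
          linarith
    · push Not at hc
      have hr1 : 1 ≤ ‖Z y‖ / ρ := by rwa [one_le_div hρ]
      have hr2 : 1 ≤ (‖Z y‖ / ρ) ^ 2 := one_le_pow₀ hr1
      have hf : ‖f (Z y)‖ ≤ K1 * (1 / ρ + 1) * (‖Z y‖ * T) := by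
        have h3 := hK1 (Z y) (by rw [hZre]; exact hx) (by rw [hZre]; linarith)
        refine h3.trans ?_
        rw [hZre, hxd, div_div_eq_mul_div, div_one]
        have h4 : |(Z y).im| ≤ ‖Z y‖ := Complex.abs_im_le_norm _
        have h5 : 1 + |(Z y).im| ≤ (1 / ρ + 1) * ‖Z y‖ := by
          have : (1 / ρ + 1) * ‖Z y‖ = ‖Z y‖ / ρ + ‖Z y‖ := by ring
          rw [this]
          linarith
        calc K1 * (1 + |(Z y).im|) * T ≤ K1 * ((1 / ρ + 1) * ‖Z y‖) * T := by gcongr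
          _ = _ := by ring
      have hl : ‖Complex.log (Z y)‖ ≤ (1 + 1 / ρ ^ 2 + Real.pi / ρ) * ‖Z y‖ := by
        refine (log_norm_le (line_ne hx y)).trans ?_
        show ‖Z y‖ + ‖Z y‖⁻¹ + Real.pi ≤ _
        have h3 : ‖Z y‖⁻¹ ≤ 1 / ρ ^ 2 * ‖Z y‖ := by
          rw [inv_le_iff_one_le_mul₀ (hZ0 y)]
          calc (1 : ℝ) ≤ (‖Z y‖ / ρ) ^ 2 := hr2
            _ = _ := by ring
        have h4 : Real.pi ≤ Real.pi / ρ * ‖Z y‖ := by
          calc Real.pi ≤ Real.pi * (‖Z y‖ / ρ) := le_mul_of_one_le_right hpi.le hr1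
            _ = _ := by ring
        nlinarith
      have hlam : ‖lam‖ ≤ ‖lam‖ / ρ * ‖Z y‖ := by
        calc ‖lam‖ ≤ ‖lam‖ * (‖Z y‖ / ρ) := le_mul_of_one_le_right (norm_nonneg _) hr1
          _ = _ := by ring
      have h4 : ‖g (Z y)‖ ≤ K * ‖Z y‖ * T := by
        have h5 : ‖g (Z y)‖ ≤ ‖f (Z y)‖ + n * ‖Complex.log (Z y)‖ + ‖lam‖ := by
          refine (norm_sub_le _ _).trans (add_le_add ((norm_add_le _ _).trans ?_) le_rfl)
          rw [norm_mul, Complex.norm_natCast]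
        have h6 : (n : ℝ) * ‖Complex.log (Z y)‖ ≤
            n * ((1 + 1 / ρ ^ 2 + Real.pi / ρ) * ‖Z y‖) := by gcongr
        have h7 : n * ((1 + 1 / ρ ^ 2 + Real.pi / ρ) * ‖Z y‖) ≤
            n * ((1 + 1 / ρ ^ 2 + Real.pi / ρ) * ‖Z y‖) * T :=
          le_mul_of_one_le_right (by positivity) hT
        have h8 : ‖lam‖ / ρ * ‖Z y‖ ≤ ‖lam‖ / ρ * ‖Z y‖ * T :=
          le_mul_of_one_le_right (by positivity) hT
        have h9 : 0 ≤ K2 * ‖Z y‖ * T := by positivity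
        have h10 : K * ‖Z y‖ * T = K2 * ‖Z y‖ * T + (K1 * (1 / ρ + 1) * (‖Z y‖ * T) +
            n * ((1 + 1 / ρ ^ 2 + Real.pi / ρ) * ‖Z y‖) * T + ‖lam‖ / ρ * ‖Z y‖ * T) := by
          rw [hKd, hK3]
          ring
        rw [h10]
        linarith
      have h5 : (x ^ 2 + y ^ 2)⁻¹ ≤ (1 + 1 / ρ ^ 2) * (1 ^ 2 + y ^ 2)⁻¹ := by
        rw [inv_le_iff_one_le_mul₀ hsq, mul_right_comm, ← div_eq_mul_inv, one_le_div (by positivity)]
        have h6 : 1 ≤ (x ^ 2 + y ^ 2) / ρ ^ 2 := by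
          rw [← hZn, ← div_pow]
          exact hr2
        have h7 : (1 + 1 / ρ ^ 2) * (x ^ 2 + y ^ 2) = (x ^ 2 + y ^ 2) + (x ^ 2 + y ^ 2) / ρ ^ 2 := by
          ring
        rw [h7]
        have := sq_nonneg x
        linarith
      calc ‖g (Z y)‖ * (x ^ 2 + y ^ 2)⁻¹ ≤
          (K * ‖Z y‖ * T) * ((1 + 1 / ρ ^ 2) * (1 ^ 2 + y ^ 2)⁻¹) := by gcongr
        _ ≤ _ := by
          have h6 : 0 ≤ K * ‖Z y‖ * (x ^ 2 + y ^ 2)⁻¹ := by positivity
          nlinarith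
  have hb : ∀ y : ℝ, ‖g (Z y) * kk x T y‖ ≤
      K * Real.exp 1 * ((x ^ 2 + y ^ 2)⁻¹ + T * ((1 + 1 / ρ ^ 2) * (1 ^ 2 + y ^ 2)⁻¹)) := by
    intro y
    rw [norm_mul, kk_norm hx, hxT]
    have h4 := hZ0 y
    have h3 := hgb y
    calc ‖g (Z y)‖ * (Real.exp 1 * (‖Z y‖⁻¹ * (x ^ 2 + y ^ 2)⁻¹)) =
        Real.exp 1 * ‖Z y‖⁻¹ * (‖g (Z y)‖ * (x ^ 2 + y ^ 2)⁻¹) := by ring
      _ ≤ Real.exp 1 * ‖Z y‖⁻¹ * (K * ‖Z y‖ *
          ((x ^ 2 + y ^ 2)⁻¹ + T * ((1 + 1 / ρ ^ 2) * (1 ^ 2 + y ^ 2)⁻¹))) := by gcongr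
      _ = K * Real.exp 1 * ((x ^ 2 + y ^ 2)⁻¹ + T * ((1 + 1 / ρ ^ 2) * (1 ^ 2 + y ^ 2)⁻¹)) *
          (‖Z y‖⁻¹ * ‖Z y‖) := by ring
      _ = _ := by rw [inv_mul_cancel₀ h4.ne', mul_one]
  have hbi : Integrable fun y : ℝ =>
      K * Real.exp 1 * ((x ^ 2 + y ^ 2)⁻¹ + T * ((1 + 1 / ρ ^ 2) * (1 ^ 2 + y ^ 2)⁻¹)) :=
    (((int_inv_sq hx).add (((int_inv_sq one_pos).const_mul _).const_mul T)).const_mul _)
  have hcont : Continuous fun y : ℝ => g (Z y) := by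
    rw [continuous_iff_continuousAt]
    intro y
    have hz : 0 < (Z y).re := by rw [hZre]; exact hx
    have h3 : ContinuousAt g (Z y) := by
      have h4 : ContinuousAt f (Z y) := (D.hderiv (Z y) hz).continuousAt
      have h5 : ContinuousAt Complex.log (Z y) := continuousAt_clog (Or.inl hz)
      exact (h4.add (continuousAt_const.mul h5)).sub continuousAt_const
    exact ContinuousAt.comp (f := Z) (g := g) h3 (by fun_prop)
  have hint1 : Integrable fun y : ℝ => g (Z y) * kk x T y :=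
    hbi.mono' ((hcont.mul (kk_cont hx T)).aestronglyMeasurable) (Eventually.of_forall hb)
  obtain ⟨hli, hlv⟩ := log_integral hT0
  rw [← hxd] at hli hlv
  have h3 : ∫ y : ℝ, g (Z y) * kk x T y = (Real.pi * T ^ 2 : ℝ) *
      (gT c rw2 T - (n * (Real.log T : ℂ) + (lam - n * ((∫ v : ℝ, lk v) / Real.pi)))) := by
    have h4 : ∫ y : ℝ, f (Z y) * kk x T y = (∫ y : ℝ, g (Z y) * kk x T y) -
        (n * ∫ y : ℝ, Complex.log ((x : ℂ) + (y : ℂ) * Complex.I) * kk x T y) +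
        lam * ∫ y : ℝ, kk x T y := by
      have i1 : Integrable fun y : ℝ => (n : ℂ) *
          (Complex.log ((x : ℂ) + (y : ℂ) * Complex.I) * kk x T y) := hli.const_mul _
      have i2 : Integrable fun y : ℝ => g (Z y) * kk x T y - (n : ℂ) *
          (Complex.log ((x : ℂ) + (y : ℂ) * Complex.I) * kk x T y) := hint1.sub i1
      have i3 : Integrable fun y : ℝ => lam * kk x T y := (kk_int hx T).const_mul _
      rw [← integral_const_mul, ← integral_const_mul, ← integral_sub hint1 i1,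
        ← integral_add i2 i3]
      congr 1
      funext y
      rw [hg]
      ring
    have h5 : ∫ y : ℝ, f (Z y) * kk x T y = (Real.pi * T ^ 2 : ℝ) * gT c rw2 T := h1
    rw [h5, hlv, h2] at h4
    have hpc : (Real.pi : ℂ) ≠ 0 := by exact_mod_cast hpi.ne'
    have h6 : ∫ y : ℝ, g (Z y) * kk x T y = (Real.pi * T ^ 2 : ℝ) * gT c rw2 T +
        n * ((T ^ 2 : ℝ) * ((∫ v : ℝ, lk v) - Real.pi * Real.log T)) -
        lam * ((Real.pi * T ^ 2 : ℝ) : ℂ) := by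
      rw [h4]
      ring
    rw [h6]
    push_cast
    field_simp
    ring
  have h6 : ‖∫ y : ℝ, g (Z y) * kk x T y‖ ≤
      K * Real.exp 1 * (Real.pi / x + T * ((1 + 1 / ρ ^ 2) * (Real.pi / 1))) := by
    have i4 : Integrable fun y : ℝ => T * ((1 + 1 / ρ ^ 2) * (1 ^ 2 + y ^ 2)⁻¹) :=
      ((int_inv_sq one_pos).const_mul _).const_mul T
    rw [← integral_inv_sq hx, ← integral_inv_sq one_pos, ← integral_const_mul, ← integral_const_mul,
      ← integral_add (int_inv_sq hx) i4, ← integral_const_mul]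
    exact norm_integral_le_of_norm_le hbi (Eventually.of_forall hb)
  rw [h3, norm_mul, Complex.norm_real, Real.norm_of_nonneg (by positivity)] at h6
  have h7 : K * Real.exp 1 * (Real.pi / x + T * ((1 + 1 / ρ ^ 2) * (Real.pi / 1))) =
      (Real.pi * T ^ 2) * (K * Real.exp 1 * (1 + (1 + 1 / ρ ^ 2)) / T) := by
    rw [hxd]
    field_simp
  rw [h7] at h6
  exact le_of_mul_le_mul_left h6 (by positivity)

end Pool.Agent.L0h3.LC
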